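import Mathlib

/-!
# Definitions for `MP_bb0bbc_gt` (product type embeddings)

`V` is `ℝ ^ (n + 1)`.  The cotangent bundle `T*Sⁿ` of the unit sphere is the set `TS V` of all
pairs `(x, y)` of vectors of `V` with `‖x‖ = 1` and `⟪x, y⟫ = 0` (the covector `⟪y, ·⟫` at `x`).
`ℂ ^ (n + 1)` is `V × V` with the form `∑ dYⱼ ∧ dXⱼ` at the point `(X, Y)`; the restriction of this
form to `TS V` is `dθ`, `θ = ∑ yⱼ dxⱼ`.
-/

open scoped InnerProductSpace ContDiff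

noncomputable section

namespace Pool.Agent.EXS

variable {V : Type*} [NormedAddCommGroup V] [InnerProductSpace ℝ V]

/-- The cotangent bundle of the unit sphere of `V`, as a submanifold of `V × V`. -/
def TS (V : Type*) [NormedAddCommGroup V] [InnerProductSpace ℝ V] : Set (V × V) :=
  {z | ‖z.1‖ = 1 ∧ ⟪z.1, z.2⟫_ℝ = 0}

/-- The tangent space of `TS V` at the point `z`. -/
def Tan (z : V × V) : Set (V × V) :=
  {u | ⟪z.1, u.1⟫_ℝ = 0 ∧ ⟪u.1, z.2⟫_ℝ + ⟪z.1, u.2⟫_ℝ = 0}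

/-- The form `∑ dYⱼ ∧ dXⱼ` on `V × V`. -/
def omega (u v : V × V) : ℝ := ⟪u.2, v.1⟫_ℝ - ⟪v.2, u.1⟫_ℝ

/-- The form `db ∧ da` on the plane with the coordinates `(a, b)`. -/
def area (u v : ℝ × ℝ) : ℝ := u.2 * v.1 - v.2 * u.1

/-- The form `∑ dYⱼ ∧ dXⱼ + db ∧ da` on `(V × V) × ℝ ^ 2`. -/
def omegaP (u v : (V × V) × ℝ × ℝ) : ℝ := omega u.1 v.1 + area u.2 v.2

/-- A smooth family `M t`, `t ∈ ℝ`, of diffeomorphisms of `T*Sⁿ` with inverses `N t`, all of them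
the identity outside of the disc bundle of radius `R₀`; `M t` is the identity for `t ≤ 0`, and
`M t = M T` is symplectic for `t ≥ T`.  (The maps are given near `T*Sⁿ` in `V × V`; only their
values on `T*Sⁿ` and the derivatives in the directions tangent to `T*Sⁿ` matter.) -/
structure IsTwist (M N : ℝ → V × V → V × V) (T R₀ : ℝ) : Prop where
  smoothM : ∀ t, ∀ z ∈ TS V, ContDiffAt ℝ ∞ (fun w : ℝ × (V × V) => M w.1 w.2) (t, z)
  smoothN : ∀ t, ∀ z ∈ TS V, ContDiffAt ℝ ∞ (fun w : ℝ × (V × V) => N w.1 w.2) (t, z)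
  mapsM : ∀ t, ∀ z ∈ TS V, M t z ∈ TS V
  mapsN : ∀ t, ∀ z ∈ TS V, N t z ∈ TS V
  leftInv : ∀ t, ∀ z ∈ TS V, N t (M t z) = z
  rightInv : ∀ t, ∀ z ∈ TS V, M t (N t z) = z
  support : ∀ t, ∀ z ∈ TS V, R₀ ≤ ‖z.2‖ → M t z = z
  start : ∀ t ≤ 0, ∀ z ∈ TS V, M t z = z
  stop : ∀ t, T ≤ t → ∀ z ∈ TS V, M t z = M T z
  symp : ∀ z ∈ TS V, ∀ u ∈ Tan z, ∀ v ∈ Tan z,
    omega (fderiv ℝ (M T) z u) (fderiv ℝ (M T) z v) = omega u v

/-- The map `Ψ (x, q, p) = (M p x, q, p)` of `T*Sⁿ × T*S¹`. -/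
def Psi (M : ℝ → V × V → V × V) (w : (V × V) × ℝ × ℝ) : (V × V) × ℝ × ℝ := (M w.2.2 w.1, w.2)

/-- The symplectic coordinates `(q, p)` on the annulus around the circle `|u| ^ 2 = 2 A` in the
plane; `p` increases outwards for `s = 1` and inwards for `s = -1`. -/
def annulus (s A : ℝ) (w : ℝ × ℝ) : ℝ × ℝ :=
  (Real.sqrt (2 * (A + s * w.2)) * Real.cos w.1, -s * Real.sqrt (2 * (A + s * w.2)) * Real.sin w.1)

/-- The product of the open disc bundle of radius `R` in `T*Sⁿ` and the open disc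
`|u| ^ 2 < 2 c` in the plane. -/
def discProd (V : Type*) [NormedAddCommGroup V] [InnerProductSpace ℝ V] (R c : ℝ) :
    Set ((V × V) × ℝ × ℝ) :=
  {w | w.1 ∈ TS V ∧ ‖w.1.2‖ < R ∧ w.2.1 ^ 2 + w.2.2 ^ 2 < 2 * c}

/-- `J` is a symplectic embedding of `D*_R Sⁿ × {|u| ^ 2 < 2 c}` in `ℂ ^ (n + 1)` with open image
and smooth inverse `K`. -/
structure IsProdEmbedding (J : (V × V) × ℝ × ℝ → V × V) (K : V × V → (V × V) × ℝ × ℝ)
    (R c : ℝ) : Prop where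
  smoothJ : ∀ w ∈ discProd V R c, ContDiffAt ℝ ∞ J w
  isOpen : IsOpen (J '' discProd V R c)
  smoothK : ContDiffOn ℝ ∞ K (J '' discProd V R c)
  leftInv : ∀ w ∈ discProd V R c, K (J w) = w
  symp : ∀ w ∈ discProd V R c, ∀ u v : (V × V) × ℝ × ℝ, u.1 ∈ Tan w.1 → v.1 ∈ Tan w.1 →
    omega (fderiv ℝ J w u) (fderiv ℝ J w v) = omegaP u v

/-- The domain `‖y‖ < R`, `|p| < B` in `T*Sⁿ × T*S¹` (`q` is a real number modulo `2π`). -/
def slab (V : Type*) [NormedAddCommGroup V] [InnerProductSpace ℝ V] (R B : ℝ) :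
    Set ((V × V) × ℝ × ℝ) :=
  {w | w.1 ∈ TS V ∧ ‖w.1.2‖ < R ∧ |w.2.2| < B}

/-- The embedding `j (x, q, p) = J (x, annulus (q, p))` of the slab in `ℂ ^ (n + 1)`. -/
def jmap (J : (V × V) × ℝ × ℝ → V × V) (s A : ℝ) (w : (V × V) × ℝ × ℝ) : V × V :=
  J (w.1, annulus s A w.2)

/-- The 2-form `ω̃` on `ℂ ^ (n + 1)`: it is `j_* ω_φ`, `ω_φ = Ψ^* dθ`, on the image of `j` and the
standard form elsewhere. -/
structure IsTransfer (J : (V × V) × ℝ × ℝ → V × V) (M : ℝ → V × V → V × V) (s A R B : ℝ)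
    (Om : V × V → V × V → V × V → ℝ) : Prop where
  off : ∀ z, z ∉ jmap J s A '' slab V R B → ∀ u v, Om z u v = omega u v
  on : ∀ w ∈ slab V R B, ∀ u v : (V × V) × ℝ × ℝ, u.1 ∈ Tan w.1 → v.1 ∈ Tan w.1 →
    Om (jmap J s A w) (fderiv ℝ (jmap J s A) w u) (fderiv ℝ (jmap J s A) w v) =
      omegaP (fderiv ℝ (Psi M) w u) (fderiv ℝ (Psi M) w v)

/-- `F` is a diffeomorphism of `ℂ ^ (n + 1)` with compact support. -/
def IsCompactDiffeo (F : V × V → V × V) : Prop :=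
  ∃ F' : V × V → V × V, ContDiff ℝ ∞ F ∧ ContDiff ℝ ∞ F' ∧ (∀ z, F' (F z) = z) ∧
    (∀ z, F (F' z) = z) ∧ ∃ S : Set (V × V), IsCompact S ∧ ∀ z ∉ S, F z = z

/-- The form `Om` on `ℂ ^ (n + 1)` is `(F⁻¹)^* ω_std` for a diffeomorphism `F` with compact
support. -/
def IsStandard (Om : V × V → V × V → V × V → ℝ) : Prop :=
  ∃ F : V × V → V × V, IsCompactDiffeo F ∧
    ∀ z u v, Om (F z) (fderiv ℝ F z u) (fderiv ℝ F z v) = omega u v

/-- The embedding `J ((x, y), (a, b)) = ((r + a) x, b x + (r + a)⁻¹ y)`. -/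
def stdJ (V : Type*) [NormedAddCommGroup V] [InnerProductSpace ℝ V] (r : ℝ)
    (w : (V × V) × ℝ × ℝ) : V × V :=
  ((r + w.2.1) • w.1.1, w.2.2 • w.1.1 + (r + w.2.1)⁻¹ • w.1.2)

/-- All data of product type in `V × V`: the form `ω̃` exists and is standard. -/
def ProductTypeStandard (V : Type*) [NormedAddCommGroup V] [InnerProductSpace ℝ V] : Prop :=
  ∀ (J : (V × V) × ℝ × ℝ → V × V) (K : V × V → (V × V) × ℝ × ℝ)
    (M N : ℝ → V × V → V × V) (R R₀ T A B c s : ℝ),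
    IsProdEmbedding J K R c → IsTwist M N T R₀ → (s = 1 ∨ s = -1) → 0 ≤ T → R₀ < R →
    T < B → B ≤ A → A + B ≤ c →
    (∃ Om, IsTransfer J M s A R B Om) ∧ ∀ Om, IsTransfer J M s A R B Om → IsStandard Om

end Pool.Agent.EXS
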