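import Mathlib
import Pool.Agent.EXS.Defs

/-! Tangent vectors of `TS V` and curves. -/

open scoped InnerProductSpace ContDiff Topology

noncomputable section

namespace Pool.Agent.EXS

variable {V : Type*} [NormedAddCommGroup V] [InnerProductSpace ℝ V]

theorem tan_of_curve {c : ℝ → V × V} {u : V × V} (hc : HasDerivAt c u 0)
    (h : ∀ᶠ s in 𝓝 (0 : ℝ), c s ∈ TS V) : u ∈ Tan (c 0) := by
  have h1 : HasDerivAt (fun s => (c s).1) u.1 0 := hc.fst
  have h2 : HasDerivAt (fun s => (c s).2) u.2 0 := hc.snd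
  have e1 : HasDerivAt (fun s => ⟪(c s).1, (c s).1⟫_ℝ)
      (⟪(c 0).1, u.1⟫_ℝ + ⟪u.1, (c 0).1⟫_ℝ) 0 := h1.inner ℝ h1
  have e2 : HasDerivAt (fun s => ⟪(c s).1, (c s).2⟫_ℝ)
      (⟪(c 0).1, u.2⟫_ℝ + ⟪u.1, (c 0).2⟫_ℝ) 0 := h1.inner ℝ h2
  have f1 : (fun s => ⟪(c s).1, (c s).1⟫_ℝ) =ᶠ[𝓝 0] fun _ => (1 : ℝ) := by
    filter_upwards [h] with s hs
    rw [real_inner_self_eq_norm_sq, hs.1]; norm_num
  have f2 : (fun s => ⟪(c s).1, (c s).2⟫_ℝ) =ᶠ[𝓝 0] fun _ => (0 : ℝ) := by
    filter_upwards [h] with s hs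
    exact hs.2
  have g1 := (e1.congr_of_eventuallyEq f1.symm).unique (hasDerivAt_const (0 : ℝ) (1 : ℝ))
  have g2 := (e2.congr_of_eventuallyEq f2.symm).unique (hasDerivAt_const (0 : ℝ) (0 : ℝ))
  constructor
  · rw [real_inner_comm (c 0).1 u.1] at g1
    linarith
  · linarith

theorem exists_curve {z u : V × V} (hz : z ∈ TS V) (hu : u ∈ Tan z) :
    ∃ c : ℝ → V × V, c 0 = z ∧ HasDerivAt c u 0 ∧ ∀ s, c s ∈ TS V := by
  obtain ⟨x, y⟩ := z
  obtain ⟨ξ, η⟩ := u
  obtain ⟨hx, hxy⟩ := hz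
  obtain ⟨h1, h2⟩ := hu
  simp only at hx hxy h1 h2
  set a : ℝ := ‖ξ‖ ^ 2 with ha
  set b : ℝ := ⟪ξ, η⟫_ℝ with hb
  have ha0 : 0 ≤ a := by positivity
  have hpos : ∀ s : ℝ, 0 < 1 + s ^ 2 * a := fun s => by positivity
  have hn : ∀ s : ℝ, ‖x + s • ξ‖ ^ 2 = 1 + s ^ 2 * a := by
    intro s
    rw [← real_inner_self_eq_norm_sq, inner_add_left, inner_add_right, inner_add_right,
      real_inner_smul_left, real_inner_smul_right, real_inner_smul_left, real_inner_smul_right,
      real_inner_self_eq_norm_sq, real_inner_self_eq_norm_sq, hx, h1, real_inner_comm, h1]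
    ring
  have hi : ∀ s : ℝ, ⟪x + s • ξ, y + s • η⟫_ℝ = s ^ 2 * b := by
    intro s
    rw [inner_add_left, inner_add_right, inner_add_right,
      real_inner_smul_left, real_inner_smul_right, real_inner_smul_left, real_inner_smul_right,
      hxy]
    have : ⟪x, η⟫_ℝ = -⟪ξ, y⟫_ℝ := by linarith
    rw [this]
    ring
  refine ⟨fun s => ((Real.sqrt (1 + s ^ 2 * a))⁻¹ • (x + s • ξ),
    y + s • η - (s ^ 2 * b / (1 + s ^ 2 * a)) • (x + s • ξ)), ?_, ?_, ?_⟩
  · simp
  · have k1 : HasDerivAt (fun s : ℝ => x + s • ξ) ξ 0 := by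
      have := ((hasDerivAt_id (0 : ℝ)).smul_const ξ).const_add x
      simpa using this
    have k2 : HasDerivAt (fun s : ℝ => y + s • η) η 0 := by
      have := ((hasDerivAt_id (0 : ℝ)).smul_const η).const_add y
      simpa using this
    have k3 : HasDerivAt (fun s : ℝ => 1 + s ^ 2 * a) 0 0 := by
      have := (((hasDerivAt_id (0 : ℝ)).pow 2).mul_const a).const_add 1
      simpa using this
    have k4 : HasDerivAt (fun s : ℝ => (Real.sqrt (1 + s ^ 2 * a))⁻¹) 0 0 := by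
      have h := (k3.sqrt (by simp)).fun_inv (by simp)
      simpa using h
    have k5 : HasDerivAt (fun s : ℝ => s ^ 2 * b / (1 + s ^ 2 * a)) 0 0 := by
      have h := (((hasDerivAt_id (0 : ℝ)).pow 2).mul_const b).fun_div k3 (by simp)
      simpa using h
    have k6 := k4.smul k1
    have k7 := k2.sub (k5.smul k1)
    have := k6.prodMk k7
    simpa using this
  · intro s
    have hs := hpos s
    constructor
    · show ‖(Real.sqrt (1 + s ^ 2 * a))⁻¹ • (x + s • ξ)‖ = 1
      rw [norm_smul, norm_inv, Real.norm_eq_abs, abs_of_nonneg (Real.sqrt_nonneg _), ← hn s,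
        Real.sqrt_sq (norm_nonneg _)]
      apply inv_mul_cancel₀
      intro h0
      have := hn s
      rw [h0] at this
      linarith [hs]
    · show ⟪(Real.sqrt (1 + s ^ 2 * a))⁻¹ • (x + s • ξ),
        y + s • η - (s ^ 2 * b / (1 + s ^ 2 * a)) • (x + s • ξ)⟫_ℝ = 0
      rw [real_inner_smul_left, inner_sub_right, hi, real_inner_smul_right,
        real_inner_self_eq_norm_sq, hn, div_mul_cancel₀ _ hs.ne', sub_self, mul_zero]

/-- Two maps which agree on `TS V` have the same derivative in tangent directions. -/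
theorem fderiv_eq_of_eqOn {F : Type*} [NormedAddCommGroup F] [NormedSpace ℝ F]
    {f g : V × V → F} {z u : V × V} (hz : z ∈ TS V) (hu : u ∈ Tan z)
    (hf : DifferentiableAt ℝ f z) (hg : DifferentiableAt ℝ g z) (h : ∀ w ∈ TS V, f w = g w) :
    fderiv ℝ f z u = fderiv ℝ g z u := by
  obtain ⟨c, rfl, hc, hm⟩ := exists_curve hz hu
  have h1 := hf.hasFDerivAt.comp_hasDerivAt (0 : ℝ) hc
  have h2 := hg.hasFDerivAt.comp_hasDerivAt (0 : ℝ) hc
  have e : f ∘ c = g ∘ c := by
    funext s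
    exact h _ (hm s)
  rw [e] at h1
  exact h1.unique h2

/-- The derivative of a map of `TS V` in itself maps tangent vectors to tangent vectors. -/
theorem fderiv_mem_tan {f : V × V → V × V} {z u : V × V} (hz : z ∈ TS V) (hu : u ∈ Tan z)
    (hf : DifferentiableAt ℝ f z) (h : ∀ w ∈ TS V, f w ∈ TS V) :
    fderiv ℝ f z u ∈ Tan (f z) := by
  obtain ⟨c, rfl, hc, hm⟩ := exists_curve hz hu
  have h1 := hf.hasFDerivAt.comp_hasDerivAt (0 : ℝ) hc
  exact tan_of_curve h1 (Filter.Eventually.of_forall fun s => h _ (hm s))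

/-- The derivative of a map with values in `TS V`. -/
theorem hasFDerivAt_mem_tan {f : V × V → V × V} {f' : V × V →L[ℝ] V × V} {z : V × V}
    (hf : HasFDerivAt f f' z) (h : ∀ᶠ w in 𝓝 z, f w ∈ TS V) (u : V × V) :
    f' u ∈ Tan (f z) := by
  have hc : HasDerivAt (fun s : ℝ => z + s • u) u 0 := by
    have := ((hasDerivAt_id (0 : ℝ)).smul_const u).const_add z
    simpa using this
  have hf' : HasFDerivAt f f' ((fun s : ℝ => z + s • u) 0) := by simpa using hf
  have h1 := hf'.comp_hasDerivAt (0 : ℝ) hc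
  have h2 : ∀ᶠ s in 𝓝 (0 : ℝ), (f ∘ fun s : ℝ => z + s • u) s ∈ TS V := by
    have hcont : Filter.Tendsto (fun s : ℝ => z + s • u) (𝓝 0) (𝓝 z) := by
      have := hc.continuousAt.tendsto
      simpa using this
    exact hcont.eventually h
  have := tan_of_curve h1 h2
  simpa using this

end Pool.Agent.EXS
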