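import Mathlib
import Pool.Agent.EXS.Defs
import Pool.Agent.EXS.Tang

/-! The map `J ∘ Λ ∘ J⁻¹`, extended by the identity. -/

open scoped InnerProductSpace ContDiff Topology

noncomputable section

namespace Pool.Agent.EXS

variable {V : Type*} [NormedAddCommGroup V] [InnerProductSpace ℝ V]

/-- A smooth family of diffeomorphisms of `T*Sⁿ` which is the identity for `t ≤ t₀` and constant
and symplectic for `t ≥ t₁`. -/
structure IsFam (L L' : ℝ → V × V → V × V) (t₀ t₁ R₀ : ℝ) : Prop where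
  smooth : ∀ t, ∀ z ∈ TS V, ContDiffAt ℝ ∞ (fun w : ℝ × (V × V) => L w.1 w.2) (t, z)
  maps : ∀ t, ∀ z ∈ TS V, L t z ∈ TS V
  leftInv : ∀ t, ∀ z ∈ TS V, L' t (L t z) = z
  support : ∀ t, ∀ z ∈ TS V, R₀ ≤ ‖z.2‖ → L t z = z
  start : ∀ t ≤ t₀, ∀ z ∈ TS V, L t z = z
  stop : ∀ t, t₁ ≤ t → ∀ z ∈ TS V, L t z = L t₁ z
  symp : ∀ z ∈ TS V, ∀ u ∈ Tan z, ∀ v ∈ Tan z,
    omega (fderiv ℝ (L t₁) z u) (fderiv ℝ (L t₁) z v) = omega u v

/-- the parameter -/
def par (A : ℝ) (u : ℝ × ℝ) : ℝ := A - (u.1 ^ 2 + u.2 ^ 2) / 2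

/-- the map `(ζ, u) ↦ (L (A - |u| ^ 2 / 2) ζ, u)` -/
def lam (L : ℝ → V × V → V × V) (A : ℝ) (w : (V × V) × ℝ × ℝ) : (V × V) × ℝ × ℝ :=
  (L (par A w.2) w.1, w.2)

open scoped Classical in
/-- the twist map -/
def tw (J : (V × V) × ℝ × ℝ → V × V) (K : V × V → (V × V) × ℝ × ℝ) (R c A : ℝ)
    (L : ℝ → V × V → V × V) (z : V × V) : V × V :=
  if z ∈ J '' discProd V R c then J (lam L A (K z)) else z

theorem TS.ne_zero {z : V × V} (hz : z ∈ TS V) : z.1 ≠ 0 := by
  intro h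
  have := hz.1
  rw [h, norm_zero] at this
  exact zero_ne_one this

theorem fam_norm_lt {L L' : ℝ → V × V → V × V} {t₀ t₁ R₀ R : ℝ} (h : IsFam L L' t₀ t₁ R₀)
    (hR : R₀ < R) (t : ℝ) {z : V × V} (hz : z ∈ TS V) (hz' : ‖z.2‖ < R) : ‖(L t z).2‖ < R := by
  by_cases h1 : R₀ ≤ ‖z.2‖
  · rw [h.support t z hz h1]; exact hz'
  by_cases h2 : R₀ ≤ ‖(L t z).2‖
  · have h3 := h.support t (L t z) (h.maps t z hz) h2
    have h4 := congrArg (L' t) h3
    rw [h.leftInv t _ (h.maps t z hz), h.leftInv t z hz] at h4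
    rw [h4]; exact hz'
  · push Not at h2
    linarith

theorem lam_mem {L L' : ℝ → V × V → V × V} {t₀ t₁ R₀ R c A : ℝ} (h : IsFam L L' t₀ t₁ R₀)
    (hR : R₀ < R) {w : (V × V) × ℝ × ℝ} (hw : w ∈ discProd V R c) :
    lam L A w ∈ discProd V R c :=
  ⟨h.maps _ _ hw.1, fam_norm_lt h hR _ hw.1 hw.2.1, hw.2.2⟩

variable {J : (V × V) × ℝ × ℝ → V × V} {K : V × V → (V × V) × ℝ × ℝ} {R c A t₀ t₁ R₀ : ℝ}
  {L L' : ℝ → V × V → V × V}

theorem K_mem (hJ : IsProdEmbedding J K R c) {z : V × V} (hz : z ∈ J '' discProd V R c) :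
    K z ∈ discProd V R c ∧ J (K z) = z := by
  obtain ⟨w, hw, rfl⟩ := hz
  rw [hJ.leftInv w hw]
  exact ⟨hw, rfl⟩

theorem tw_J (hJ : IsProdEmbedding J K R c) {w : (V × V) × ℝ × ℝ} (hw : w ∈ discProd V R c) :
    tw J K R c A L (J w) = J (lam L A w) := by
  unfold tw
  rw [if_pos ⟨w, hw, rfl⟩, hJ.leftInv w hw]

theorem tw_tw (hJ : IsProdEmbedding J K R c) (h : IsFam L L' t₀ t₁ R₀) (hR : R₀ < R)
    (z : V × V) : tw J K R c A L' (tw J K R c A L z) = z := by
  by_cases hz : z ∈ J '' discProd V R c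
  · obtain ⟨w, hw, rfl⟩ := hz
    rw [tw_J hJ hw, tw_J hJ (lam_mem h hR hw)]
    congr 1
    unfold lam
    simp only
    rw [h.leftInv _ _ hw.1]
  · have e1 : tw J K R c A L z = z := by unfold tw; rw [if_neg hz]
    rw [e1]
    unfold tw
    rw [if_neg hz]

/-- the support of the twist map -/
def supp (V : Type*) [NormedAddCommGroup V] [InnerProductSpace ℝ V] (R₀ c₀ : ℝ) :
    Set ((V × V) × ℝ × ℝ) :=
  {w | w.1 ∈ TS V ∧ ‖w.1.2‖ ≤ R₀ ∧ w.2.1 ^ 2 + w.2.2 ^ 2 ≤ 2 * c₀}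

theorem isClosed_TS : IsClosed (TS V) := by
  have h1 : IsClosed {z : V × V | ‖z.1‖ = 1} := isClosed_eq (by fun_prop) continuous_const
  have h2 : IsClosed {z : V × V | ⟪z.1, z.2⟫_ℝ = 0} :=
    isClosed_eq (by fun_prop) continuous_const
  exact h1.inter h2

theorem isCompact_supp [FiniteDimensional ℝ V] (R₀ c₀ : ℝ) : IsCompact (supp V R₀ c₀) := by
  apply Metric.isCompact_of_isClosed_isBounded
  · have h1 : IsClosed {w : (V × V) × ℝ × ℝ | w.1 ∈ TS V} := isClosed_TS.preimage continuous_fst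
    have h2 : IsClosed {w : (V × V) × ℝ × ℝ | ‖w.1.2‖ ≤ R₀} :=
      isClosed_le (by fun_prop) continuous_const
    have h3 : IsClosed {w : (V × V) × ℝ × ℝ | w.2.1 ^ 2 + w.2.2 ^ 2 ≤ 2 * c₀} :=
      isClosed_le (by fun_prop) continuous_const
    exact h1.inter (h2.inter h3)
  · rw [isBounded_iff_forall_norm_le]
    refine ⟨max (max 1 R₀) (Real.sqrt (2 * c₀)), ?_⟩
    rintro ⟨⟨x, y⟩, ⟨a, b⟩⟩ ⟨h1, h2, h3⟩
    have hx : ‖x‖ = 1 := h1.1
    have hy : ‖y‖ ≤ R₀ := h2
    have hab : a ^ 2 + b ^ 2 ≤ 2 * c₀ := h3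
    have ha : |a| ≤ Real.sqrt (2 * c₀) := Real.abs_le_sqrt (by nlinarith [sq_nonneg b])
    have hb : |b| ≤ Real.sqrt (2 * c₀) := Real.abs_le_sqrt (by nlinarith [sq_nonneg a])
    simp only [Prod.norm_def, Real.norm_eq_abs]
    refine max_le (max_le ?_ ?_) (max_le ?_ ?_)
    · exact (hx.le.trans (le_max_left _ _)).trans (le_max_left _ _)
    · exact (hy.trans (le_max_right _ _)).trans (le_max_left _ _)
    · exact ha.trans (le_max_right _ _)
    · exact hb.trans (le_max_right _ _)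

theorem supp_subset (hR : R₀ < R) {c₀ : ℝ} (hc : c₀ < c) : supp V R₀ c₀ ⊆ discProd V R c := by
  rintro w ⟨h1, h2, h3⟩
  exact ⟨h1, lt_of_le_of_lt h2 hR, by linarith⟩

theorem J_contDiffAt (hJ : IsProdEmbedding J K R c) {w : (V × V) × ℝ × ℝ}
    (hw : w ∈ discProd V R c) : ContDiffAt ℝ ∞ J w :=
  hJ.smoothJ w hw

theorem K_contDiffAt (hJ : IsProdEmbedding J K R c) {z : V × V}
    (hz : z ∈ J '' discProd V R c) : ContDiffAt ℝ ∞ K z :=
  hJ.smoothK.contDiffAt (hJ.isOpen.mem_nhds hz)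

theorem Lt_contDiffAt
    (hs : ∀ t, ∀ z ∈ TS V, ContDiffAt ℝ ∞ (fun w : ℝ × (V × V) => L w.1 w.2) (t, z)) (t : ℝ) {z : V × V} (hz : z ∈ TS V) : ContDiffAt ℝ ∞ (L t) z := by
  have h1 := hs t z hz
  have h2 : ContDiffAt ℝ ∞ (fun z : V × V => (t, z)) z := by fun_prop
  exact ContDiffAt.comp (g := fun w : ℝ × (V × V) => L w.1 w.2) z h1 h2

theorem lam_contDiffAt (h : IsFam L L' t₀ t₁ R₀) {w : (V × V) × ℝ × ℝ} (hw : w.1 ∈ TS V) :
    ContDiffAt ℝ ∞ (lam L A) w := by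
  have h1 := h.smooth (par A w.2) w.1 hw
  have h2 : ContDiffAt ℝ ∞ (fun w : (V × V) × ℝ × ℝ => (par A w.2, w.1)) w := by
    unfold par
    fun_prop
  have h3 : ContDiffAt ℝ ∞ (fun w : (V × V) × ℝ × ℝ => L (par A w.2) w.1) w :=
    ContDiffAt.comp (g := fun w : ℝ × (V × V) => L w.1 w.2) w h1 h2
  exact h3.prodMk (by fun_prop)

theorem tw_eq_self (hJ : IsProdEmbedding J K R c) (h : IsFam L L' t₀ t₁ R₀) {z : V × V}
    (hz : z ∉ J '' supp V R₀ (A - t₀)) : tw J K R c A L z = z := by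
  by_cases hO : z ∈ J '' discProd V R c
  · obtain ⟨w, hw, rfl⟩ := hO
    rw [tw_J hJ hw]
    congr 1
    have hns : w ∉ supp V R₀ (A - t₀) := fun hh => hz ⟨w, hh, rfl⟩
    have : L (par A w.2) w.1 = w.1 := by
      by_cases h1 : R₀ ≤ ‖w.1.2‖
      · exact h.support _ _ hw.1 h1
      · apply h.start _ _ _ hw.1
        by_contra hcon
        apply hns
        refine ⟨hw.1, by push Not at h1; exact h1.le, ?_⟩
        unfold par at hcon
        push Not at hcon
        linarith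
    unfold lam
    rw [this]
  · unfold tw
    rw [if_neg hO]

theorem isCompact_image_supp [FiniteDimensional ℝ V] (hJ : IsProdEmbedding J K R c)
    (hR : R₀ < R) {c₀ : ℝ} (hc : c₀ < c) : IsCompact (J '' supp V R₀ c₀) := by
  apply (isCompact_supp R₀ c₀).image_of_continuousOn
  intro w hw
  exact (J_contDiffAt hJ (supp_subset hR hc hw)).continuousAt.continuousWithinAt

theorem tw_eventuallyEq (hJ : IsProdEmbedding J K R c) {z : V × V}
    (hz : z ∈ J '' discProd V R c) :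
    tw J K R c A L =ᶠ[𝓝 z] fun z => J (lam L A (K z)) := by
  filter_upwards [hJ.isOpen.mem_nhds hz] with y hy
  unfold tw
  rw [if_pos hy]

theorem tw_contDiff [FiniteDimensional ℝ V] (hJ : IsProdEmbedding J K R c)
    (h : IsFam L L' t₀ t₁ R₀) (hR : R₀ < R) (hc : A - t₀ < c) :
    ContDiff ℝ ∞ (tw J K R c A L) := by
  rw [contDiff_iff_contDiffAt]
  intro z
  by_cases hz : z ∈ J '' supp V R₀ (A - t₀)
  · have hzO : z ∈ J '' discProd V R c := Set.image_mono (supp_subset hR hc) hz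
    have h1 := (K_mem hJ hzO).1
    have h2 : ContDiffAt ℝ ∞ (fun z => lam L A (K z)) z :=
      ContDiffAt.comp z (lam_contDiffAt h h1.1) (K_contDiffAt hJ hzO)
    have h3 : ContDiffAt ℝ ∞ (fun z => J (lam L A (K z))) z :=
      ContDiffAt.comp z (J_contDiffAt hJ (lam_mem h hR h1)) h2
    exact h3.congr_of_eventuallyEq (tw_eventuallyEq hJ hzO)
  · have hopen : IsOpen (J '' supp V R₀ (A - t₀))ᶜ :=
      (isCompact_image_supp hJ hR hc).isClosed.isOpen_compl
    have : tw J K R c A L =ᶠ[𝓝 z] id := by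
      filter_upwards [hopen.mem_nhds hz] with y hy
      exact tw_eq_self hJ h hy
    exact contDiffAt_id.congr_of_eventuallyEq this

/-- The derivative of the twist map on the image of `J`. -/
theorem tw_hasFDerivAt (hJ : IsProdEmbedding J K R c) (h : IsFam L L' t₀ t₁ R₀) (hR : R₀ < R)
    {z : V × V} (hz : z ∈ J '' discProd V R c) :
    HasFDerivAt (tw J K R c A L) ((fderiv ℝ J (lam L A (K z))).comp
      ((fderiv ℝ (lam L A) (K z)).comp (fderiv ℝ K z))) z := by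
  have h1 := (K_mem hJ hz).1
  have hK := ((K_contDiffAt hJ hz).differentiableAt (by simp)).hasFDerivAt
  have hl := ((lam_contDiffAt (A := A) h h1.1).differentiableAt (by simp)).hasFDerivAt
  have hj := ((J_contDiffAt hJ (lam_mem (A := A) h hR h1)).differentiableAt (by simp)).hasFDerivAt
  have h2 : HasFDerivAt (fun z => lam L A (K z))
      ((fderiv ℝ (lam L A) (K z)).comp (fderiv ℝ K z)) z := hl.comp z hK
  have h3 : HasFDerivAt (fun z => J (lam L A (K z))) ((fderiv ℝ J (lam L A (K z))).comp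
      ((fderiv ℝ (lam L A) (K z)).comp (fderiv ℝ K z))) z := hj.comp z h2
  exact h3.congr_of_eventuallyEq (tw_eventuallyEq hJ hz)

/-- `DK` has values in the tangent space. -/
theorem K_tan (hJ : IsProdEmbedding J K R c) {z : V × V} (hz : z ∈ J '' discProd V R c)
    (u : V × V) : (fderiv ℝ K z u).1 ∈ Tan (K z).1 := by
  have hK := ((K_contDiffAt hJ hz).differentiableAt (by simp)).hasFDerivAt
  have := hasFDerivAt_mem_tan hK.fst (by
    filter_upwards [hJ.isOpen.mem_nhds hz] with y hy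
    exact (K_mem hJ hy).1.1) u
  exact this

theorem lam_tan (hJ : IsProdEmbedding J K R c) (h : IsFam L L' t₀ t₁ R₀) {z : V × V}
    (hz : z ∈ J '' discProd V R c) (u : V × V) :
    (fderiv ℝ (lam L A) (K z) (fderiv ℝ K z u)).1 ∈ Tan (lam L A (K z)).1 := by
  have h1 := (K_mem hJ hz).1
  have hK := ((K_contDiffAt hJ hz).differentiableAt (by simp)).hasFDerivAt
  have hl := ((lam_contDiffAt (A := A) h h1.1).differentiableAt (by simp)).hasFDerivAt
  have h2 : HasFDerivAt (fun z => lam L A (K z))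
      ((fderiv ℝ (lam L A) (K z)).comp (fderiv ℝ K z)) z := hl.comp z hK
  have := hasFDerivAt_mem_tan h2.fst (by
    filter_upwards [hJ.isOpen.mem_nhds hz] with y hy
    exact h.maps _ _ (K_mem hJ hy).1.1) u
  exact this

/-- `J` and `K` are inverse to each other, so `DJ (DK u) = u`. -/
theorem J_K (hJ : IsProdEmbedding J K R c) {z : V × V} (hz : z ∈ J '' discProd V R c)
    (u : V × V) : fderiv ℝ J (K z) (fderiv ℝ K z u) = u := by
  have h1 := (K_mem hJ hz).1
  have hK := ((K_contDiffAt hJ hz).differentiableAt (by simp)).hasFDerivAt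
  have hj := ((J_contDiffAt hJ h1).differentiableAt (by simp)).hasFDerivAt
  have h2 : HasFDerivAt (fun z => J (K z)) ((fderiv ℝ J (K z)).comp (fderiv ℝ K z)) z :=
    hj.comp z hK
  have h3 : (fun z => J (K z)) =ᶠ[𝓝 z] id := by
    filter_upwards [hJ.isOpen.mem_nhds hz] with y hy
    exact (K_mem hJ hy).2
  have h4 := h2.congr_of_eventuallyEq h3.symm
  have h5 := h4.unique (hasFDerivAt_id z)
  have := congrArg (fun f => f u) h5
  simpa using this

theorem omega_eq_K (hJ : IsProdEmbedding J K R c) {z : V × V} (hz : z ∈ J '' discProd V R c)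
    (u v : V × V) : omega u v = omegaP (fderiv ℝ K z u) (fderiv ℝ K z v) := by
  have h1 := (K_mem hJ hz).1
  have := hJ.symp (K z) h1 (fderiv ℝ K z u) (fderiv ℝ K z v) (K_tan hJ hz u) (K_tan hJ hz v)
  rw [J_K hJ hz, J_K hJ hz] at this
  exact this

/-- The pull back of the standard form by the twist map. -/
theorem omega_tw (hJ : IsProdEmbedding J K R c) (h : IsFam L L' t₀ t₁ R₀) (hR : R₀ < R)
    {z : V × V} (hz : z ∈ J '' discProd V R c) (u v : V × V) :
    omega (fderiv ℝ (tw J K R c A L) z u) (fderiv ℝ (tw J K R c A L) z v) =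
      omegaP (fderiv ℝ (lam L A) (K z) (fderiv ℝ K z u))
        (fderiv ℝ (lam L A) (K z) (fderiv ℝ K z v)) := by
  have h1 := (K_mem hJ hz).1
  rw [(tw_hasFDerivAt (A := A) hJ h hR hz).fderiv]
  exact hJ.symp _ (lam_mem h hR h1) _ _ (lam_tan hJ h hz u) (lam_tan hJ h hz v)

theorem omega_tw_outer [FiniteDimensional ℝ V] (hJ : IsProdEmbedding J K R c)
    (h : IsFam L L' t₀ t₁ R₀) (hR : R₀ < R) (hc : A - t₀ < c) {z : V × V}
    (hz : z ∉ J '' supp V R₀ (A - t₀)) (u v : V × V) :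
    omega (fderiv ℝ (tw J K R c A L) z u) (fderiv ℝ (tw J K R c A L) z v) = omega u v := by
  have hopen : IsOpen (J '' supp V R₀ (A - t₀))ᶜ :=
    (isCompact_image_supp hJ hR hc).isClosed.isOpen_compl
  have : tw J K R c A L =ᶠ[𝓝 z] id := by
    filter_upwards [hopen.mem_nhds hz] with y hy
    exact tw_eq_self hJ h hy
  have h2 : HasFDerivAt (tw J K R c A L) (ContinuousLinearMap.id ℝ (V × V)) z :=
    (hasFDerivAt_id z).congr_of_eventuallyEq this
  rw [h2.fderiv]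
  simp

theorem omega_tw_inner (hJ : IsProdEmbedding J K R c) (h : IsFam L L' t₀ t₁ R₀) (hR : R₀ < R)
    {z : V × V} (hz : z ∈ J '' discProd V R c) (ht : t₁ < par A (K z).2) (u v : V × V) :
    omega (fderiv ℝ (tw J K R c A L) z u) (fderiv ℝ (tw J K R c A L) z v) = omega u v := by
  have h1 := (K_mem hJ hz).1
  rw [omega_tw hJ h hR hz, omega_eq_K hJ hz u v]
  have hK := ((K_contDiffAt hJ hz).differentiableAt (by simp)).hasFDerivAt
  have hl := ((lam_contDiffAt (A := A) h h1.1).differentiableAt (by simp)).hasFDerivAt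
  have h2 : HasFDerivAt (fun z => lam L A (K z))
      ((fderiv ℝ (lam L A) (K z)).comp (fderiv ℝ K z)) z := hl.comp z hK
  have hL := ((Lt_contDiffAt h.smooth t₁ h1.1).differentiableAt (by simp)).hasFDerivAt
  have h3 : HasFDerivAt (fun z => (L t₁ (K z).1, (K z).2))
      (((fderiv ℝ (L t₁) (K z).1).comp
        ((ContinuousLinearMap.fst ℝ (V × V) (ℝ × ℝ)).comp (fderiv ℝ K z))).prod
        ((ContinuousLinearMap.snd ℝ (V × V) (ℝ × ℝ)).comp (fderiv ℝ K z))) z :=
    (hL.comp z hK.fst).prodMk hK.snd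
  have hcont : ContinuousAt (fun z => par A (K z).2) z := by
    have := (K_contDiffAt hJ hz).continuousAt
    unfold par
    fun_prop
  have h4 : (fun z => lam L A (K z)) =ᶠ[𝓝 z] fun z => (L t₁ (K z).1, (K z).2) := by
    filter_upwards [hJ.isOpen.mem_nhds hz, hcont.eventually (lt_mem_nhds ht)] with y hy hy2
    unfold lam
    rw [h.stop _ hy2.le _ (K_mem hJ hy).1.1]
  have h5 := h2.unique (h3.congr_of_eventuallyEq h4)
  have e : ∀ u : V × V, fderiv ℝ (lam L A) (K z) (fderiv ℝ K z u) =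
      (fderiv ℝ (L t₁) (K z).1 (fderiv ℝ K z u).1, (fderiv ℝ K z u).2) := by
    intro u
    have := congrArg (fun f => f u) h5
    simpa using this
  rw [e u, e v]
  unfold omegaP
  simp only
  rw [h.symp _ h1.1 _ (K_tan hJ hz u) _ (K_tan hJ hz v)]

end Pool.Agent.EXS
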