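import Mathlib
import Pool.Agent.EXS.Defs
import Pool.Agent.EXS.Core

/-! The annulus. -/

open scoped InnerProductSpace ContDiff Topology

noncomputable section

namespace Pool.Agent.EXS

variable {V : Type*} [NormedAddCommGroup V] [InnerProductSpace ℝ V]

/-- the derivative of `annulus` -/
def annulusD (s A : ℝ) (w v : ℝ × ℝ) : ℝ × ℝ :=
  (-Real.sqrt (2 * (A + s * w.2)) * Real.sin w.1 * v.1 +
      s * v.2 / Real.sqrt (2 * (A + s * w.2)) * Real.cos w.1,
    -s * Real.sqrt (2 * (A + s * w.2)) * Real.cos w.1 * v.1 -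
      s * (s * v.2 / Real.sqrt (2 * (A + s * w.2))) * Real.sin w.1)

theorem annulus_differentiableAt {s A : ℝ} {w : ℝ × ℝ} (hw : 0 < A + s * w.2) :
    ContDiffAt ℝ ∞ (annulus s A) w := by
  have h0 : (2 * (A + s * w.2)) ≠ 0 := by positivity
  have h1 : ContDiffAt ℝ ∞ (fun w : ℝ × ℝ => 2 * (A + s * w.2)) w := by fun_prop
  have h2 : ContDiffAt ℝ ∞ (fun w : ℝ × ℝ => Real.sqrt (2 * (A + s * w.2))) w := h1.sqrt h0
  have h3 : ContDiffAt ℝ ∞ (fun w : ℝ × ℝ => Real.cos w.1) w := by fun_prop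
  have h4 : ContDiffAt ℝ ∞ (fun w : ℝ × ℝ => Real.sin w.1) w := by fun_prop
  unfold annulus
  exact (h2.mul h3).prodMk ((contDiffAt_const.mul h2).mul h4)

theorem annulus_fderiv {s A : ℝ} {w : ℝ × ℝ} (hw : 0 < A + s * w.2) (v : ℝ × ℝ) :
    fderiv ℝ (annulus s A) w v = annulusD s A w v := by
  have h0 : (2 * (A + s * w.2)) ≠ 0 := by positivity
  have hd := ((annulus_differentiableAt hw).differentiableAt (by simp)).hasFDerivAt
  have hc : HasDerivAt (fun t : ℝ => w + t • v) v 0 := by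
    have := ((hasDerivAt_id (0 : ℝ)).smul_const v).const_add w
    simpa using this
  have hd' : HasFDerivAt (annulus s A) (fderiv ℝ (annulus s A) w)
      ((fun t : ℝ => w + t • v) 0) := by simpa using hd
  have h1 := hd'.comp_hasDerivAt (0 : ℝ) hc
  have k1 : HasDerivAt (fun t : ℝ => w.1 + t * v.1) v.1 0 := by
    have := ((hasDerivAt_id (0 : ℝ)).mul_const v.1).const_add w.1
    simpa using this
  have k2 : HasDerivAt (fun t : ℝ => 2 * (A + s * (w.2 + t * v.2))) (2 * (s * v.2)) 0 := by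
    have := ((((((hasDerivAt_id (0 : ℝ)).mul_const v.2).const_add w.2).const_mul s).const_add
      A).const_mul 2)
    simpa using this
  have k3 : HasDerivAt (fun t : ℝ => Real.sqrt (2 * (A + s * (w.2 + t * v.2))))
      (s * v.2 / Real.sqrt (2 * (A + s * w.2))) 0 := by
    have h := k2.sqrt (by simpa using h0)
    have e : 2 * (s * v.2) / (2 * Real.sqrt (2 * (A + s * (w.2 + 0 * v.2)))) =
        s * v.2 / Real.sqrt (2 * (A + s * w.2)) := by
      rw [zero_mul, add_zero, mul_div_mul_left _ _ (two_ne_zero)]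
    rw [e] at h
    exact h
  have k4 := k3.fun_mul k1.cos
  have k5 := (k3.const_mul (-s)).fun_mul k1.sin
  have k6 := k4.prodMk k5
  have h2 : HasDerivAt (annulus s A ∘ fun t : ℝ => w + t • v) (annulusD s A w v) 0 := by
    have e1 : (annulus s A ∘ fun t : ℝ => w + t • v) = fun t : ℝ =>
        (Real.sqrt (2 * (A + s * (w.2 + t * v.2))) * Real.cos (w.1 + t * v.1),
          -s * Real.sqrt (2 * (A + s * (w.2 + t * v.2))) * Real.sin (w.1 + t * v.1)) := by
      funext t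
      simp [annulus]
    rw [e1]
    have e2 : annulusD s A w v = (s * v.2 / Real.sqrt (2 * (A + s * w.2)) *
          Real.cos (w.1 + 0 * v.1) +
        Real.sqrt (2 * (A + s * (w.2 + 0 * v.2))) * (-Real.sin (w.1 + 0 * v.1) * v.1),
        -s * (s * v.2 / Real.sqrt (2 * (A + s * w.2))) * Real.sin (w.1 + 0 * v.1) +
        -s * Real.sqrt (2 * (A + s * (w.2 + 0 * v.2))) * (Real.cos (w.1 + 0 * v.1) * v.1)) := by
      unfold annulusD
      simp only [zero_mul, add_zero]
      ext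
      · simp only; ring
      · simp only; ring
    rw [e2]
    exact k6
  exact h1.unique h2

theorem annulus_sq {s A : ℝ} (hs : s ^ 2 = 1) {w : ℝ × ℝ} (hw : 0 ≤ A + s * w.2) :
    (annulus s A w).1 ^ 2 + (annulus s A w).2 ^ 2 = 2 * (A + s * w.2) := by
  have h : 0 ≤ 2 * (A + s * w.2) := by positivity
  unfold annulus
  simp only
  have e := Real.sq_sqrt h
  have e2 := Real.sin_sq_add_cos_sq w.1
  calc _ = Real.sqrt (2 * (A + s * w.2)) ^ 2 * (s ^ 2 * Real.sin w.1 ^ 2 + Real.cos w.1 ^ 2) := by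
        ring
    _ = _ := by rw [hs, one_mul, e2, e, mul_one]

theorem par_annulus {s A : ℝ} (hs : s ^ 2 = 1) {w : ℝ × ℝ} (hw : 0 ≤ A + s * w.2) :
    par A (annulus s A w) = -s * w.2 := by
  unfold par
  rw [annulus_sq hs hw]
  ring

theorem area_annulusD {s A : ℝ} (hs : s ^ 2 = 1) {w : ℝ × ℝ} (hw : 0 < A + s * w.2)
    (u v : ℝ × ℝ) : area (annulusD s A w u) (annulusD s A w v) = area u v := by
  have h : 0 < Real.sqrt (2 * (A + s * w.2)) := Real.sqrt_pos.mpr (by positivity)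
  have e2 := Real.sin_sq_add_cos_sq w.1
  unfold area annulusD
  simp only
  set ρ := Real.sqrt (2 * (A + s * w.2)) with hρ
  have : ∀ x : ℝ, x / ρ * ρ = x := fun x => div_mul_cancel₀ _ h.ne'
  calc _ = (s ^ 2 * (Real.sin w.1 ^ 2 + Real.cos w.1 ^ 2)) * (u.2 * v.1 - v.2 * u.1) := by
        field_simp
        ring
    _ = _ := by rw [hs, e2]; ring

/-- a right inverse of the derivative -/
def annulusI (s A : ℝ) (w k : ℝ × ℝ) : ℝ × ℝ :=
  (-s * ((annulus s A w).1 * k.2 - (annulus s A w).2 * k.1) / (2 * (A + s * w.2)),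
    s * ((annulus s A w).1 * k.1 + (annulus s A w).2 * k.2))

theorem annulusD_annulusI {s A : ℝ} (hs : s ^ 2 = 1) {w : ℝ × ℝ} (hw : 0 < A + s * w.2)
    (k : ℝ × ℝ) : annulusD s A w (annulusI s A w k) = k := by
  have h : 0 < Real.sqrt (2 * (A + s * w.2)) := Real.sqrt_pos.mpr (by positivity)
  have e2 := Real.sin_sq_add_cos_sq w.1
  have e3 : Real.sqrt (2 * (A + s * w.2)) ^ 2 = 2 * (A + s * w.2) :=
    Real.sq_sqrt (by positivity)
  unfold annulusD annulusI annulus
  simp only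
  rw [← e3, Real.sqrt_sq h.le]
  set ρ := Real.sqrt (2 * (A + s * w.2)) with hρ
  set S := Real.sin w.1
  set C := Real.cos w.1
  obtain ⟨k1, k2⟩ := k
  simp only
  have hρ2 : ρ ^ 2 ≠ 0 := by positivity
  ext
  · simp only
    have : (-ρ * S * (-s * (ρ * C * k2 - -s * ρ * S * k1) / ρ ^ 2) +
        s * (s * (ρ * C * k1 + -s * ρ * S * k2)) / ρ * C) =
        (s ^ 2 * S ^ 2 + s ^ 2 * C ^ 2) * k1 + (s * S * C - s * s ^ 2 * S * C) * k2 := by
      field_simp
      ring
    rw [this, hs]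
    have : S ^ 2 + C ^ 2 = 1 := e2
    rw [one_mul, one_mul, this]
    ring
  · simp only
    have : (-s * ρ * C * (-s * (ρ * C * k2 - -s * ρ * S * k1) / ρ ^ 2) -
        s * (s * (s * (ρ * C * k1 + -s * ρ * S * k2)) / ρ) * S) =
        (s ^ 2 * C ^ 2 + s ^ 2 * s ^ 2 * S ^ 2) * k2 + (s * s ^ 2 * S * C - s * s ^ 2 * S * C) * k1 := by
      field_simp
      ring
    rw [this, hs]
    have : S ^ 2 + C ^ 2 = 1 := e2
    have e4 : (1 * C ^ 2 + 1 * 1 * S ^ 2) = 1 := by linarith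
    rw [e4]
    ring

theorem exists_annulus {s A B : ℝ} (hs : s ^ 2 = 1) (hBA : B ≤ A) {u : ℝ × ℝ}
    (h1 : 2 * (A - B) < u.1 ^ 2 + u.2 ^ 2) (h2 : u.1 ^ 2 + u.2 ^ 2 < 2 * (A + B)) :
    ∃ w : ℝ × ℝ, |w.2| < B ∧ annulus s A w = u := by
  set m : ℝ := u.1 ^ 2 + u.2 ^ 2 with hm
  have hm0 : 0 < m := by linarith
  set ρ := Real.sqrt m with hρ
  have hρ0 : 0 < ρ := Real.sqrt_pos.mpr hm0
  have hρ2 : ρ ^ 2 = m := Real.sq_sqrt hm0.le
  set z : ℂ := ⟨u.1 / ρ, -s * u.2 / ρ⟩ with hz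
  have hn : ‖z‖ = 1 := by
    have h3 : ‖z‖ ^ 2 = 1 := by
      rw [Complex.sq_norm, Complex.normSq_apply, hz]
      simp only
      have : u.1 / ρ * (u.1 / ρ) + -s * u.2 / ρ * (-s * u.2 / ρ) =
          (u.1 ^ 2 + s ^ 2 * u.2 ^ 2) / ρ ^ 2 := by
        field_simp
      rw [this, hs, hρ2, one_mul, ← hm]
      exact div_self hm0.ne'
    exact (pow_eq_one_iff_of_nonneg (norm_nonneg z) (by norm_num)).mp h3
  have hz0 : z ≠ 0 := by
    intro h
    rw [h, norm_zero] at hn
    exact zero_ne_one hn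
  have hcos : Real.cos (Complex.arg z) = u.1 / ρ := by
    rw [Complex.cos_arg hz0, hn, div_one]
  have hsin : Real.sin (Complex.arg z) = -s * u.2 / ρ := by
    rw [Complex.sin_arg, hn, div_one]
  refine ⟨(Complex.arg z, s * (m / 2 - A)), ?_, ?_⟩
  · simp only
    rw [abs_mul]
    have : |s| = 1 := by
      have h5 : |s| ^ 2 = 1 := by rw [sq_abs]; exact hs
      exact (pow_eq_one_iff_of_nonneg (abs_nonneg s) (by norm_num)).mp h5
    rw [this, one_mul, abs_lt]
    constructor <;> linarith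
  · unfold annulus
    simp only
    have e : 2 * (A + s * (s * (m / 2 - A))) = m := by
      have : s * (s * (m / 2 - A)) = s ^ 2 * (m / 2 - A) := by ring
      rw [this, hs]; ring
    rw [e, hcos, hsin, ← hρ]
    ext
    · simp only
      field_simp
    · simp only
      have : -s * ρ * (-s * u.2 / ρ) = s ^ 2 * u.2 := by
        field_simp
      rw [this, hs, one_mul]

end Pool.Agent.EXS
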