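import Mathlib
import Pool.Agent.EXS.Defs
import Pool.Agent.EXS.Core
import Pool.Agent.EXS.Annulus

/-! The form `ω̃` of a product type embedding is standard. -/

open scoped InnerProductSpace ContDiff Topology

noncomputable section

namespace Pool.Agent.EXS

variable {V : Type*} [NormedAddCommGroup V] [InnerProductSpace ℝ V]
variable {J : (V × V) × ℝ × ℝ → V × V} {K : V × V → (V × V) × ℝ × ℝ} {R c A B s T R₀ : ℝ}
  {M N L : ℝ → V × V → V × V} {Θ : V × V → V × V}

theorem comp_curve {E F : Type*} [NormedAddCommGroup E] [NormedSpace ℝ E]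
    [NormedAddCommGroup F] [NormedSpace ℝ F] {g : E → F} {g' : E →L[ℝ] F} {w : E}
    (hg : HasFDerivAt g g' w) {γ : ℝ → E} {y : E} (hγ : HasDerivAt γ y 0) (h0 : γ 0 = w) :
    HasDerivAt (g ∘ γ) (g' y) 0 := by
  subst h0
  exact hg.comp_hasDerivAt 0 hγ

theorem Psi_contDiffAt
    (hM : ∀ t, ∀ z ∈ TS V, ContDiffAt ℝ ∞ (fun w : ℝ × (V × V) => M w.1 w.2) (t, z))
    {w : (V × V) × ℝ × ℝ} (hw : w.1 ∈ TS V) : ContDiffAt ℝ ∞ (Psi M) w := by
  have h1 := hM w.2.2 w.1 hw
  have h2 : ContDiffAt ℝ ∞ (fun w : (V × V) × ℝ × ℝ => (w.2.2, w.1)) w := by fun_prop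
  have h3 : ContDiffAt ℝ ∞ (fun w : (V × V) × ℝ × ℝ => M w.2.2 w.1) w :=
    ContDiffAt.comp (g := fun w : ℝ × (V × V) => M w.1 w.2) w h1 h2
  exact h3.prodMk (by fun_prop)

theorem Psi_fderiv_snd
    (hM : ∀ t, ∀ z ∈ TS V, ContDiffAt ℝ ∞ (fun w : ℝ × (V × V) => M w.1 w.2) (t, z))
    {w : (V × V) × ℝ × ℝ} (hw : w.1 ∈ TS V) (u : (V × V) × ℝ × ℝ) :
    (fderiv ℝ (Psi M) w u).2 = u.2 := by
  have h := ((Psi_contDiffAt hM hw).differentiableAt (by simp)).hasFDerivAt
  have h1 := h.snd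
  have h2 : HasFDerivAt (fun w : (V × V) × ℝ × ℝ => (Psi M w).2)
      (ContinuousLinearMap.snd ℝ (V × V) (ℝ × ℝ)) w := hasFDerivAt_snd
  have h3 := congrArg (fun f => f u) (h1.unique h2)
  simpa using h3

theorem Psi_fderiv_tan
    (hM : ∀ t, ∀ z ∈ TS V, ContDiffAt ℝ ∞ (fun w : ℝ × (V × V) => M w.1 w.2) (t, z))
    (hmaps : ∀ t, ∀ z ∈ TS V, M t z ∈ TS V)
    {w : (V × V) × ℝ × ℝ} (hw : w.1 ∈ TS V) {u : (V × V) × ℝ × ℝ} (hu : u.1 ∈ Tan w.1) :
    (fderiv ℝ (Psi M) w u).1 ∈ Tan (Psi M w).1 := by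
  have h := ((Psi_contDiffAt hM hw).differentiableAt (by simp)).hasFDerivAt
  obtain ⟨γ, h0, hγ, hm⟩ := exists_curve hw hu
  have k : HasDerivAt (fun t : ℝ => w.2 + t • u.2) u.2 0 := by
    have := ((hasDerivAt_id (0 : ℝ)).smul_const u.2).const_add w.2
    simpa using this
  have hc : HasDerivAt (fun t : ℝ => (γ t, w.2 + t • u.2)) u 0 := hγ.prodMk k
  have e0 : (fun t : ℝ => (γ t, w.2 + t • u.2)) 0 = w := by
    simp [h0]
  have h' : HasFDerivAt (Psi M) (fderiv ℝ (Psi M) w)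
      ((fun t : ℝ => (γ t, w.2 + t • u.2)) 0) := by rw [e0]; exact h
  have h1 := (h'.comp_hasDerivAt (0 : ℝ) hc)
  have h2 := tan_of_curve h1.fst (Filter.Eventually.of_forall fun t => hmaps _ _ (hm t))
  have e1 : ((Psi M ∘ fun t : ℝ => (γ t, w.2 + t • u.2)) 0).1 = (Psi M w).1 := by
    show (Psi M ((fun t : ℝ => (γ t, w.2 + t • u.2)) 0)).1 = _
    rw [e0]
  rw [e1] at h2
  exact h2

/-- `jmap` on the slab -/
theorem slab_mem (hs : s ^ 2 = 1) (hc : A + B ≤ c) {w : (V × V) × ℝ × ℝ}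
    (hw : w ∈ slab V R B) (hBA : B ≤ A) :
    0 < A + s * w.2.2 ∧ (w.1, annulus s A w.2) ∈ discProd V R c := by
  have h1 : |s| = 1 := by
    have h5 : |s| ^ 2 = 1 := by rw [sq_abs]; exact hs
    exact (pow_eq_one_iff_of_nonneg (abs_nonneg s) (by norm_num)).mp h5
  have h2 : |s * w.2.2| < B := by rw [abs_mul, h1, one_mul]; exact hw.2.2
  have h3 := abs_lt.mp h2
  have h4 : 0 < A + s * w.2.2 := by linarith
  refine ⟨h4, hw.1, hw.2.1, ?_⟩
  rw [annulus_sq hs h4.le]
  linarith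

theorem fderiv_prodMap {w : (V × V) × ℝ × ℝ} (hw : 0 < A + s * w.2.2) :
    HasFDerivAt (fun w : (V × V) × ℝ × ℝ => (w.1, annulus s A w.2))
      ((ContinuousLinearMap.fst ℝ (V × V) (ℝ × ℝ)).prod
        ((fderiv ℝ (annulus s A) w.2).comp (ContinuousLinearMap.snd ℝ (V × V) (ℝ × ℝ)))) w := by
  have h1 := ((annulus_differentiableAt hw).differentiableAt (by simp)).hasFDerivAt
  exact hasFDerivAt_fst.prodMk (h1.comp w hasFDerivAt_snd)

/-- The comparison on the slab. -/
theorem omega_tw_slab {L' : ℝ → V × V → V × V} {t₀ t₁ : ℝ} (hs : s ^ 2 = 1)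
    (hJ : IsProdEmbedding J K R c) (h : IsFam L L' t₀ t₁ R₀) (hR : R₀ < R) (hBA : B ≤ A)
    (hc : A + B ≤ c)
    (hM : ∀ t, ∀ z ∈ TS V, ContDiffAt ℝ ∞ (fun w : ℝ × (V × V) => M w.1 w.2) (t, z))
    (hmaps : ∀ t, ∀ z ∈ TS V, M t z ∈ TS V)
    (hΘ : ∀ z ∈ TS V, DifferentiableAt ℝ Θ z)
    (hΘs : ∀ z ∈ TS V, ∀ u ∈ Tan z, ∀ v ∈ Tan z,
      omega (fderiv ℝ Θ z u) (fderiv ℝ Θ z v) = omega u v)
    (hL : ∀ p, ∀ z ∈ TS V, L (-s * p) z = Θ (M p z))
    {w : (V × V) × ℝ × ℝ} (hw : w ∈ slab V R B) (u v : V × V)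
    (Om : V × V → V × V → V × V → ℝ) (hOm : IsTransfer J M s A R B Om) :
    omega (fderiv ℝ (tw J K R c A L) (jmap J s A w) u)
      (fderiv ℝ (tw J K R c A L) (jmap J s A w) v) = Om (jmap J s A w) u v := by
  obtain ⟨hpos, hmem⟩ := slab_mem (s := s) (A := A) (c := c) hs hc hw hBA
  set z := jmap J s A w with hz
  have hzO : z ∈ J '' discProd V R c := ⟨_, hmem, rfl⟩
  have hKz : K z = (w.1, annulus s A w.2) := hJ.leftInv _ hmem
  have hφ := fderiv_prodMap (V := V) (s := s) (A := A) hpos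
  -- the lifted vectors
  set li : V × V → (V × V) × ℝ × ℝ := fun u =>
    ((fderiv ℝ K z u).1, annulusI s A w.2 (fderiv ℝ K z u).2) with hli
  have hlitan : ∀ u, (li u).1 ∈ Tan w.1 := by
    intro u
    have := K_tan hJ hzO u
    rw [hKz] at this
    exact this
  have hφli : ∀ u, ((ContinuousLinearMap.fst ℝ (V × V) (ℝ × ℝ)).prod
        ((fderiv ℝ (annulus s A) w.2).comp (ContinuousLinearMap.snd ℝ (V × V) (ℝ × ℝ)))) (li u) =
        fderiv ℝ K z u := by
    intro u
    have e1 : fderiv ℝ (annulus s A) w.2 (annulusI s A w.2 (fderiv ℝ K z u).2) =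
        (fderiv ℝ K z u).2 := by
      rw [annulus_fderiv hpos, annulusD_annulusI hs hpos]
    show ((fderiv ℝ K z u).1, fderiv ℝ (annulus s A) w.2 (annulusI s A w.2 (fderiv ℝ K z u).2)) =
      fderiv ℝ K z u
    rw [e1]
  -- derivative of j
  have hj : HasFDerivAt (jmap J s A) ((fderiv ℝ J (w.1, annulus s A w.2)).comp
      ((ContinuousLinearMap.fst ℝ (V × V) (ℝ × ℝ)).prod
        ((fderiv ℝ (annulus s A) w.2).comp (ContinuousLinearMap.snd ℝ (V × V) (ℝ × ℝ))))) w := by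
    have h1 := ((J_contDiffAt hJ hmem).differentiableAt (by simp)).hasFDerivAt
    exact h1.comp w hφ
  have hjli : ∀ u, fderiv ℝ (jmap J s A) w (li u) = u := by
    intro u
    rw [hj.fderiv]
    show fderiv ℝ J (w.1, annulus s A w.2) (((ContinuousLinearMap.fst ℝ (V × V) (ℝ × ℝ)).prod
        ((fderiv ℝ (annulus s A) w.2).comp (ContinuousLinearMap.snd ℝ (V × V) (ℝ × ℝ)))) (li u)) = u
    rw [hφli, ← hKz]
    exact J_K hJ hzO u
  have hO := hOm.on w hw (li u) (li v) (hlitan u) (hlitan v)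
  rw [hjli, hjli] at hO
  rw [hO, omega_tw hJ h hR hzO]
  -- derivative of lam ∘ φ
  have hlam := ((lam_contDiffAt (A := A) h (hKz ▸ hw.1 : (K z).1 ∈ TS V)).differentiableAt
    (by simp)).hasFDerivAt
  rw [hKz] at hlam
  have hc1 := hlam.comp w hφ
  have hPsi := ((Psi_contDiffAt hM hw.1).differentiableAt (by simp)).hasFDerivAt
  have hPw : (Psi M w).1 ∈ TS V := hmaps _ _ hw.1
  have hΘw := (hΘ _ hPw).hasFDerivAt
  have hann := ((annulus_differentiableAt hpos).differentiableAt (by simp)).hasFDerivAt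
  have hc2 : HasFDerivAt (fun w : (V × V) × ℝ × ℝ => (Θ (Psi M w).1, annulus s A w.2))
      (((fderiv ℝ Θ (Psi M w).1).comp
        ((ContinuousLinearMap.fst ℝ (V × V) (ℝ × ℝ)).comp (fderiv ℝ (Psi M) w))).prod
        ((fderiv ℝ (annulus s A) w.2).comp (ContinuousLinearMap.snd ℝ (V × V) (ℝ × ℝ)))) w :=
    (hΘw.comp w hPsi.fst).prodMk (hann.comp w hasFDerivAt_snd)
  -- the two maps agree on `TS V × (neighbourhood of w.2)`; compare along curves
  have key : ∀ y : (V × V) × ℝ × ℝ, y.1 ∈ Tan w.1 →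
      fderiv ℝ (lam L A) (w.1, annulus s A w.2) (((ContinuousLinearMap.fst ℝ (V × V) (ℝ × ℝ)).prod
        ((fderiv ℝ (annulus s A) w.2).comp (ContinuousLinearMap.snd ℝ (V × V) (ℝ × ℝ)))) y) =
      (fderiv ℝ Θ (Psi M w).1 (fderiv ℝ (Psi M) w y).1, fderiv ℝ (annulus s A) w.2 y.2) := by
    intro y hy
    obtain ⟨γ, h0, hγ, hm⟩ := exists_curve hw.1 hy
    have k : HasDerivAt (fun t : ℝ => w.2 + t • y.2) y.2 0 := by
      have := ((hasDerivAt_id (0 : ℝ)).smul_const y.2).const_add w.2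
      simpa using this
    have hcur : HasDerivAt (fun t : ℝ => (γ t, w.2 + t • y.2)) y 0 := hγ.prodMk k
    have e0 : (fun t : ℝ => (γ t, w.2 + t • y.2)) 0 = w := by
      simp [h0]
    have h1 := comp_curve hc1 hcur e0
    have h2 := comp_curve hc2 hcur e0
    have hev : ∀ᶠ t in 𝓝 (0 : ℝ), 0 < A + s * (w.2 + t • y.2).2 := by
      have hcont : ContinuousAt (fun t : ℝ => A + s * (w.2 + t • y.2).2) 0 := by fun_prop
      have := hcont.eventually (lt_mem_nhds (a := 0) (by simpa using hpos))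
      exact this
    have heq : ((lam L A ∘ fun w : (V × V) × ℝ × ℝ => (w.1, annulus s A w.2)) ∘
        fun t : ℝ => (γ t, w.2 + t • y.2)) =ᶠ[𝓝 0]
        ((fun w : (V × V) × ℝ × ℝ => (Θ (Psi M w).1, annulus s A w.2)) ∘
        fun t : ℝ => (γ t, w.2 + t • y.2)) := by
      filter_upwards [hev] with t ht
      show lam L A (γ t, annulus s A (w.2 + t • y.2)) = (Θ (M _ (γ t)), annulus s A (w.2 + t • y.2))
      unfold lam
      simp only
      rw [par_annulus hs ht.le, hL _ _ (hm t)]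
    exact h1.unique (h2.congr_of_eventuallyEq heq)
  have k1 := key (li u) (hlitan u)
  have k2 := key (li v) (hlitan v)
  rw [hφli] at k1 k2
  rw [hKz, k1, k2]
  unfold omegaP
  simp only
  rw [hΘs _ hPw _ (Psi_fderiv_tan hM hmaps hw.1 (hlitan u)) _
    (Psi_fderiv_tan hM hmaps hw.1 (hlitan v)), annulus_fderiv hpos, annulus_fderiv hpos,
    area_annulusD hs hpos, Psi_fderiv_snd hM hw.1, Psi_fderiv_snd hM hw.1]

/-- The twist map pulls the standard form back to `ω̃`. -/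
theorem omega_tw_all [FiniteDimensional ℝ V] {L' : ℝ → V × V → V × V} {t₀ t₁ : ℝ}
    (hs : s ^ 2 = 1)
    (hJ : IsProdEmbedding J K R c) (h : IsFam L L' t₀ t₁ R₀) (hR : R₀ < R) (hBA : B ≤ A)
    (hc : A + B ≤ c) (ht0 : -B < t₀) (ht1 : t₁ < B)
    (hM : ∀ t, ∀ z ∈ TS V, ContDiffAt ℝ ∞ (fun w : ℝ × (V × V) => M w.1 w.2) (t, z))
    (hmaps : ∀ t, ∀ z ∈ TS V, M t z ∈ TS V)
    (hΘ : ∀ z ∈ TS V, DifferentiableAt ℝ Θ z)
    (hΘs : ∀ z ∈ TS V, ∀ u ∈ Tan z, ∀ v ∈ Tan z,
      omega (fderiv ℝ Θ z u) (fderiv ℝ Θ z v) = omega u v)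
    (hL : ∀ p, ∀ z ∈ TS V, L (-s * p) z = Θ (M p z))
    (Om : V × V → V × V → V × V → ℝ) (hOm : IsTransfer J M s A R B Om) (z u v : V × V) :
    omega (fderiv ℝ (tw J K R c A L) z u) (fderiv ℝ (tw J K R c A L) z v) = Om z u v := by
  by_cases hz : z ∈ jmap J s A '' slab V R B
  · obtain ⟨w, hw, rfl⟩ := hz
    exact omega_tw_slab hs hJ h hR hBA hc hM hmaps hΘ hΘs hL hw u v Om hOm
  · rw [hOm.off z hz]
    by_cases hz2 : z ∈ J '' supp V R₀ (A - t₀)
    · obtain ⟨w, hw, rfl⟩ := hz2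
      have hwO : w ∈ discProd V R c := supp_subset hR (by linarith) hw
      have hK : K (J w) = w := hJ.leftInv w hwO
      apply omega_tw_inner hJ h hR ⟨w, hwO, rfl⟩
      rw [hK]
      by_contra hcon
      push Not at hcon
      apply hz
      have h1 : 2 * (A - B) < w.2.1 ^ 2 + w.2.2 ^ 2 := by
        unfold par at hcon
        linarith
      have h2 : w.2.1 ^ 2 + w.2.2 ^ 2 < 2 * (A + B) := by
        have := hw.2.2
        linarith
      obtain ⟨q, hq1, hq2⟩ := exists_annulus hs hBA h1 h2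
      refine ⟨(w.1, q), ⟨hwO.1, hwO.2.1, hq1⟩, ?_⟩
      unfold jmap
      simp only
      rw [hq2]
    · exact omega_tw_outer hJ h hR (by linarith) hz2 u v

/-- From the twist map to the diffeomorphism. -/
theorem exists_diffeo [FiniteDimensional ℝ V] {L' : ℝ → V × V → V × V} {t₀ t₁ t₀' t₁' : ℝ}
    (hJ : IsProdEmbedding J K R c) (h : IsFam L L' t₀ t₁ R₀) (h' : IsFam L' L t₀' t₁' R₀)
    (hR : R₀ < R) (hc : A - t₀ < c) (hc' : A - t₀' < c)
    (Om : V × V → V × V → V × V → ℝ)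
    (hG : ∀ z u v : V × V, omega (fderiv ℝ (tw J K R c A L) z u)
      (fderiv ℝ (tw J K R c A L) z v) = Om z u v) :
    ∃ F : V × V → V × V, IsCompactDiffeo F ∧
      ∀ z u v, Om (F z) (fderiv ℝ F z u) (fderiv ℝ F z v) = omega u v := by
  have hsm := tw_contDiff (A := A) hJ h hR hc
  have hsm' := tw_contDiff (A := A) hJ h' hR hc'
  refine ⟨tw J K R c A L', ⟨tw J K R c A L, hsm', hsm, tw_tw hJ h' hR, tw_tw hJ h hR,
    J '' supp V R₀ (A - t₀'), isCompact_image_supp hJ hR hc', fun z hz => tw_eq_self hJ h' hz⟩, ?_⟩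
  intro z u v
  rw [← hG]
  have d1 := ((hsm'.contDiffAt (x := z)).differentiableAt (by simp)).hasFDerivAt
  have d2 := ((hsm.contDiffAt (x := tw J K R c A L' z)).differentiableAt (by simp)).hasFDerivAt
  have d3 := d2.comp z d1
  have e : (tw J K R c A L ∘ tw J K R c A L') = id := by
    funext y
    exact tw_tw hJ h' hR y
  rw [e] at d3
  have e2 := d3.unique (hasFDerivAt_id z)
  have e3 : ∀ u, fderiv ℝ (tw J K R c A L) (tw J K R c A L' z)
      (fderiv ℝ (tw J K R c A L') z u) = u := by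
    intro u
    have := congrArg (fun f => f u) e2
    simpa using this
  rw [e3, e3]

/-- The inverse of a symplectic map is symplectic. -/
theorem symp_inverse {C C' : V × V → V × V} (hC : ∀ z ∈ TS V, DifferentiableAt ℝ C z)
    (hC' : ∀ z ∈ TS V, DifferentiableAt ℝ C' z) (hmaps' : ∀ z ∈ TS V, C' z ∈ TS V)
    (hinv : ∀ z ∈ TS V, C (C' z) = z)
    (hs : ∀ z ∈ TS V, ∀ u ∈ Tan z, ∀ v ∈ Tan z,
      omega (fderiv ℝ C z u) (fderiv ℝ C z v) = omega u v)
    {z : V × V} (hz : z ∈ TS V) {u v : V × V} (hu : u ∈ Tan z) (hv : v ∈ Tan z) :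
    omega (fderiv ℝ C' z u) (fderiv ℝ C' z v) = omega u v := by
  have h1 := (hC' z hz).hasFDerivAt
  have h2 := (hC (C' z) (hmaps' z hz)).hasFDerivAt
  have h3 := h2.comp z h1
  have e : ∀ u ∈ Tan z, fderiv ℝ C (C' z) (fderiv ℝ C' z u) = u := by
    intro u hu
    have h4 := fderiv_eq_of_eqOn (f := C ∘ C') (g := id) hz hu h3.differentiableAt
      differentiableAt_id (fun w hw => hinv w hw)
    rw [h3.fderiv] at h4
    simpa using h4
  have h5 := hs (C' z) (hmaps' z hz) _ (fderiv_mem_tan hz hu (hC' z hz) hmaps')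
    _ (fderiv_mem_tan hz hv (hC' z hz) hmaps')
  rw [e u hu, e v hv] at h5
  exact h5.symm

theorem isTwist_isFam (hM : IsTwist M N T R₀) : IsFam M N 0 T R₀ :=
  ⟨hM.smoothM, hM.mapsM, hM.leftInv, hM.support, hM.start, hM.stop, hM.symp⟩

theorem isTwist_supportN (hM : IsTwist M N T R₀) (t : ℝ) {z : V × V} (hz : z ∈ TS V)
    (h : R₀ ≤ ‖z.2‖) : N t z = z := by
  have := hM.support t z hz h
  have h2 := hM.leftInv t z hz
  rw [this] at h2
  exact h2

theorem isTwist_sympN (hM : IsTwist M N T R₀) : ∀ z ∈ TS V, ∀ u ∈ Tan z, ∀ v ∈ Tan z,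
    omega (fderiv ℝ (N T) z u) (fderiv ℝ (N T) z v) = omega u v := by
  intro z hz u hu v hv
  exact symp_inverse
    (fun z hz => (Lt_contDiffAt hM.smoothM T hz).differentiableAt (by simp))
    (fun z hz => (Lt_contDiffAt hM.smoothN T hz).differentiableAt (by simp))
    (hM.mapsN T) (hM.rightInv T) hM.symp hz hu hv

theorem isTwist_isFamN (hM : IsTwist M N T R₀) : IsFam N M 0 T R₀ where
  smooth := hM.smoothN
  maps := hM.mapsN
  leftInv := hM.rightInv
  support t z hz h := isTwist_supportN hM t hz h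
  start t ht z hz := by
    have := hM.leftInv t z hz
    rw [hM.start t ht z hz] at this
    exact this
  stop t ht z hz := by
    have h1 := hM.rightInv t z hz
    have h2 := hM.stop t ht (N t z) (hM.mapsN t z hz)
    rw [h1] at h2
    have h3 := congrArg (N T) h2
    rw [hM.leftInv T _ (hM.mapsN t z hz)] at h3
    exact h3.symm
  symp := isTwist_sympN hM

/-- the family for the other orientation -/
theorem isTwist_isFam2 (hM : IsTwist M N T R₀) :
    IsFam (fun t z => N T (M (-t) z)) (fun t z => N (-t) (M T z)) (-T) 0 R₀ where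
  smooth t z hz := by
    have h1 := hM.smoothM (-t) z hz
    have h2 : ContDiffAt ℝ ∞ (fun w : ℝ × (V × V) => (-w.1, w.2)) (t, z) := by fun_prop
    have h3 : ContDiffAt ℝ ∞ (fun w : ℝ × (V × V) => M (-w.1) w.2) (t, z) :=
      ContDiffAt.comp (g := fun w : ℝ × (V × V) => M w.1 w.2) (t, z) h1 h2
    have h4 := Lt_contDiffAt hM.smoothN T (hM.mapsM (-t) z hz)
    exact ContDiffAt.comp (g := N T) (t, z) h4 h3
  maps t z hz := hM.mapsN _ _ (hM.mapsM _ _ hz)
  leftInv t z hz := by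
    show N (-t) (M T (N T (M (-t) z))) = z
    rw [hM.rightInv T _ (hM.mapsM _ _ hz), hM.leftInv _ _ hz]
  support t z hz h := by
    show N T (M (-t) z) = z
    rw [hM.support _ z hz h, isTwist_supportN hM T hz h]
  start t ht z hz := by
    show N T (M (-t) z) = z
    rw [hM.stop (-t) (by linarith) z hz, hM.leftInv T z hz]
  stop t ht z hz := by
    show N T (M (-t) z) = N T (M (-0) z)
    rw [hM.start (-t) (by linarith) z hz, hM.start (-0) (by simp) z hz]
  symp z hz u hu v hv := by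
    have hd : DifferentiableAt ℝ (fun z => N T (M (-0) z)) z := by
      have h1 := Lt_contDiffAt hM.smoothM (-0) hz
      have h2 := Lt_contDiffAt hM.smoothN T (hM.mapsM (-0) z hz)
      exact (ContDiffAt.comp (g := N T) z h2 h1).differentiableAt (by simp)
    have hd2 : DifferentiableAt ℝ (N T) z :=
      (Lt_contDiffAt hM.smoothN T hz).differentiableAt (by simp)
    have heq : ∀ w ∈ TS V, (fun z => N T (M (-0) z)) w = N T w := by
      intro w hw
      show N T (M (-0) w) = N T w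
      rw [hM.start (-0) (by simp) w hw]
    rw [fderiv_eq_of_eqOn hz hu hd hd2 heq, fderiv_eq_of_eqOn hz hv hd hd2 heq]
    exact isTwist_sympN hM z hz u hu v hv

theorem isTwist_isFam2N (hM : IsTwist M N T R₀) :
    IsFam (fun t z => N (-t) (M T z)) (fun t z => N T (M (-t) z)) (-T) 0 R₀ where
  smooth t z hz := by
    have h1 := hM.smoothN (-t) (M T z) (hM.mapsM T z hz)
    have h0 := Lt_contDiffAt hM.smoothM T hz
    have h00 : ContDiffAt ℝ ∞ (fun w : ℝ × (V × V) => M T w.2) (t, z) :=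
      ContDiffAt.comp (g := M T) (t, z) h0 contDiffAt_snd
    have h2 : ContDiffAt ℝ ∞ (fun w : ℝ × (V × V) => (-w.1, M T w.2)) (t, z) :=
      (contDiffAt_fst.neg).prodMk h00
    exact ContDiffAt.comp (g := fun w : ℝ × (V × V) => N w.1 w.2) (t, z) h1 h2
  maps t z hz := hM.mapsN _ _ (hM.mapsM _ _ hz)
  leftInv t z hz := by
    show N T (M (-t) (N (-t) (M T z))) = z
    rw [hM.rightInv (-t) _ (hM.mapsM _ _ hz), hM.leftInv _ _ hz]
  support t z hz h := by
    show N (-t) (M T z) = z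
    rw [hM.support _ z hz h, isTwist_supportN hM (-t) hz h]
  start t ht z hz := by
    show N (-t) (M T z) = z
    rw [← hM.stop (-t) (by linarith) z hz, hM.leftInv (-t) z hz]
  stop t ht z hz := by
    show N (-t) (M T z) = N (-0) (M T z)
    rw [(isTwist_isFamN hM).start (-t) (by linarith) _ (hM.mapsM _ _ hz),
      (isTwist_isFamN hM).start (-0) (by simp) _ (hM.mapsM _ _ hz)]
  symp z hz u hu v hv := by
    have hd : DifferentiableAt ℝ (fun z => N (-0) (M T z)) z := by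
      have h1 := Lt_contDiffAt hM.smoothM T hz
      have h2 := Lt_contDiffAt hM.smoothN (-0) (hM.mapsM T z hz)
      exact (ContDiffAt.comp (g := N (-0)) z h2 h1).differentiableAt (by simp)
    have hd2 : DifferentiableAt ℝ (M T) z :=
      (Lt_contDiffAt hM.smoothM T hz).differentiableAt (by simp)
    have heq : ∀ w ∈ TS V, (fun z => N (-0) (M T z)) w = M T w := by
      intro w hw
      show N (-0) (M T w) = M T w
      rw [(isTwist_isFamN hM).start (-0) (by simp) _ (hM.mapsM _ _ hw)]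
    rw [fderiv_eq_of_eqOn hz hu hd hd2 heq, fderiv_eq_of_eqOn hz hv hd hd2 heq]
    exact hM.symp z hz u hu v hv

/-- The form `ω̃` of a product type embedding is standard. -/
theorem transfer_standard [FiniteDimensional ℝ V] (hM : IsTwist M N T R₀)
    (hJ : IsProdEmbedding J K R c) (hs : s = 1 ∨ s = -1) (hT : 0 ≤ T) (hR : R₀ < R)
    (hTB : T < B) (hBA : B ≤ A) (hc : A + B ≤ c)
    (Om : V × V → V × V → V × V → ℝ) (hOm : IsTransfer J M s A R B Om) :
    ∃ F : V × V → V × V, IsCompactDiffeo F ∧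
      ∀ z u v, Om (F z) (fderiv ℝ F z u) (fderiv ℝ F z v) = omega u v := by
  rcases hs with rfl | rfl
  · have h1 := isTwist_isFam2 hM
    have h2 := isTwist_isFam2N hM
    refine exists_diffeo (A := A) (R := R) (c := c) hJ h1 h2 hR (by linarith) (by linarith) Om ?_
    intro z u v
    refine omega_tw_all (Θ := N T) (by norm_num) hJ h1 hR hBA hc (by linarith) (by linarith)
      hM.smoothM hM.mapsM
      (fun z hz => (Lt_contDiffAt hM.smoothN T hz).differentiableAt (by simp))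
      (isTwist_sympN hM) ?_ Om hOm z u v
    intro p z hz
    show N T (M (-(-1 * p)) z) = N T (M p z)
    have : -(-1 * p) = p := by ring
    rw [this]
  · have h1 := isTwist_isFam hM
    have h2 := isTwist_isFamN hM
    refine exists_diffeo (A := A) (R := R) (c := c) hJ h1 h2 hR (by linarith) (by linarith) Om ?_
    intro z u v
    refine omega_tw_all (Θ := id) (by norm_num) hJ h1 hR hBA hc (by linarith) (by linarith)
      hM.smoothM hM.mapsM (fun z _ => differentiableAt_id) ?_ ?_ Om hOm z u v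
    · intro z _ u _ v _
      simp
    · intro p z hz
      show M (-(-1) * p) z = id (M p z)
      have : -(-1) * p = p := by ring
      rw [this]
      rfl

end Pool.Agent.EXS
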