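import Mathlib
import Pool.Agent.EXS.Defs
import Pool.Agent.EXS.Core
import Pool.Agent.EXS.Annulus
import Pool.Agent.EXS.Main

/-! Existence of the form `ω̃`, and an explicit product type embedding. -/

open scoped InnerProductSpace ContDiff Topology

noncomputable section

namespace Pool.Agent.EXS

variable {V : Type*} [NormedAddCommGroup V] [InnerProductSpace ℝ V]
variable {J : (V × V) × ℝ × ℝ → V × V} {K : V × V → (V × V) × ℝ × ℝ} {R c A B s T R₀ : ℝ}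
  {M N L : ℝ → V × V → V × V} {Θ : V × V → V × V}

theorem tw_on {L' : ℝ → V × V → V × V} {t₀ t₁ : ℝ} (hs : s ^ 2 = 1)
    (hJ : IsProdEmbedding J K R c) (h : IsFam L L' t₀ t₁ R₀) (hR : R₀ < R) (hBA : B ≤ A)
    (hc : A + B ≤ c)
    (hM : ∀ t, ∀ z ∈ TS V, ContDiffAt ℝ ∞ (fun w : ℝ × (V × V) => M w.1 w.2) (t, z))
    (hmaps : ∀ t, ∀ z ∈ TS V, M t z ∈ TS V)
    (hΘ : ∀ z ∈ TS V, DifferentiableAt ℝ Θ z) (hΘm : ∀ z ∈ TS V, Θ z ∈ TS V)
    (hΘs : ∀ z ∈ TS V, ∀ u ∈ Tan z, ∀ v ∈ Tan z,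
      omega (fderiv ℝ Θ z u) (fderiv ℝ Θ z v) = omega u v)
    (hL : ∀ p, ∀ z ∈ TS V, L (-s * p) z = Θ (M p z))
    {w : (V × V) × ℝ × ℝ} (hw : w ∈ slab V R B) (u v : (V × V) × ℝ × ℝ)
    (hu : u.1 ∈ Tan w.1) (hv : v.1 ∈ Tan w.1) :
    omega (fderiv ℝ (tw J K R c A L) (jmap J s A w) (fderiv ℝ (jmap J s A) w u))
      (fderiv ℝ (tw J K R c A L) (jmap J s A w) (fderiv ℝ (jmap J s A) w v)) =
      omegaP (fderiv ℝ (Psi M) w u) (fderiv ℝ (Psi M) w v) := by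
  obtain ⟨hpos, hmem⟩ := slab_mem (s := s) (A := A) (c := c) hs hc hw hBA
  have hzO : jmap J s A w ∈ J '' discProd V R c := ⟨_, hmem, rfl⟩
  have hKz : K (jmap J s A w) = (w.1, annulus s A w.2) := hJ.leftInv _ hmem
  have hφ := fderiv_prodMap (V := V) (s := s) (A := A) hpos
  have hj : HasFDerivAt (jmap J s A) ((fderiv ℝ J (w.1, annulus s A w.2)).comp
      ((ContinuousLinearMap.fst ℝ (V × V) (ℝ × ℝ)).prod
        ((fderiv ℝ (annulus s A) w.2).comp (ContinuousLinearMap.snd ℝ (V × V) (ℝ × ℝ))))) w := by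
    have h1 := ((J_contDiffAt hJ hmem).differentiableAt (by simp)).hasFDerivAt
    exact h1.comp w hφ
  have htw := tw_hasFDerivAt (A := A) hJ h hR hzO
  have hcomp := htw.comp w hj
  -- the other description
  have hPsi := ((Psi_contDiffAt hM hw.1).differentiableAt (by simp)).hasFDerivAt
  have hPw : (Psi M w).1 ∈ TS V := hmaps _ _ hw.1
  have hΘw := (hΘ _ hPw).hasFDerivAt
  have hann := ((annulus_differentiableAt hpos).differentiableAt (by simp)).hasFDerivAt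
  have hc2 : HasFDerivAt (fun w : (V × V) × ℝ × ℝ => (Θ (Psi M w).1, annulus s A w.2))
      (((fderiv ℝ Θ (Psi M w).1).comp
        ((ContinuousLinearMap.fst ℝ (V × V) (ℝ × ℝ)).comp (fderiv ℝ (Psi M) w))).prod
        ((fderiv ℝ (annulus s A) w.2).comp (ContinuousLinearMap.snd ℝ (V × V) (ℝ × ℝ)))) w :=
    (hΘw.comp w hPsi.fst).prodMk (hann.comp w hasFDerivAt_snd)
  have hval : lam L A (w.1, annulus s A w.2) = (Θ (Psi M w).1, annulus s A w.2) := by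
    unfold lam
    simp only
    rw [par_annulus hs hpos.le, hL _ _ hw.1]
    rfl
  have hmem2 : (Θ (Psi M w).1, annulus s A w.2) ∈ discProd V R c := by
    rw [← hval]
    exact lam_mem h hR hmem
  have hJ2 := ((J_contDiffAt hJ hmem2).differentiableAt (by simp)).hasFDerivAt
  have hc3 : HasFDerivAt (fun w : (V × V) × ℝ × ℝ => J (Θ (Psi M w).1, annulus s A w.2))
      ((fderiv ℝ J (Θ (Psi M w).1, annulus s A w.2)).comp
      (((fderiv ℝ Θ (Psi M w).1).comp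
        ((ContinuousLinearMap.fst ℝ (V × V) (ℝ × ℝ)).comp (fderiv ℝ (Psi M) w))).prod
        ((fderiv ℝ (annulus s A) w.2).comp (ContinuousLinearMap.snd ℝ (V × V) (ℝ × ℝ))))) w :=
    hJ2.comp w hc2
  have key : ∀ y : (V × V) × ℝ × ℝ, y.1 ∈ Tan w.1 →
      fderiv ℝ (tw J K R c A L) (jmap J s A w) (fderiv ℝ (jmap J s A) w y) =
      fderiv ℝ J (Θ (Psi M w).1, annulus s A w.2)
        (fderiv ℝ Θ (Psi M w).1 (fderiv ℝ (Psi M) w y).1, fderiv ℝ (annulus s A) w.2 y.2) := by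
    intro y hy
    obtain ⟨γ, h0, hγ, hm⟩ := exists_curve hw.1 hy
    have k : HasDerivAt (fun t : ℝ => w.2 + t • y.2) y.2 0 := by
      have := ((hasDerivAt_id (0 : ℝ)).smul_const y.2).const_add w.2
      simpa using this
    have hcur : HasDerivAt (fun t : ℝ => (γ t, w.2 + t • y.2)) y 0 := hγ.prodMk k
    have e0 : (fun t : ℝ => (γ t, w.2 + t • y.2)) 0 = w := by
      simp [h0]
    have h1 := comp_curve hcomp hcur e0
    have h2 := comp_curve hc3 hcur e0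
    have hγc : ContinuousAt γ 0 := hγ.continuousAt
    have hev : ∀ᶠ t in 𝓝 (0 : ℝ), (γ t, w.2 + t • y.2) ∈ slab V R B := by
      have c1 : ContinuousAt (fun t : ℝ => ‖(γ t).2‖) 0 := by fun_prop
      have c2 : ContinuousAt (fun t : ℝ => |(w.2 + t • y.2).2|) 0 := by fun_prop
      have d1 : ∀ᶠ t in 𝓝 (0 : ℝ), ‖(γ t).2‖ < R :=
        c1.eventually_lt continuousAt_const (by rw [h0]; exact hw.2.1)
      have d2 : ∀ᶠ t in 𝓝 (0 : ℝ), |(w.2 + t • y.2).2| < B :=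
        c2.eventually_lt continuousAt_const (by simpa using hw.2.2)
      filter_upwards [d1, d2] with t ht1 ht2
      exact ⟨hm t, ht1, ht2⟩
    have heq : (tw J K R c A L ∘ jmap J s A) ∘ (fun t : ℝ => (γ t, w.2 + t • y.2)) =ᶠ[𝓝 0]
        (fun w : (V × V) × ℝ × ℝ => J (Θ (Psi M w).1, annulus s A w.2)) ∘
        fun t : ℝ => (γ t, w.2 + t • y.2) := by
      filter_upwards [hev] with t ht
      obtain ⟨hp2, hm2⟩ := slab_mem (s := s) (A := A) (c := c) hs hc ht hBA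
      show tw J K R c A L (J (γ t, annulus s A (w.2 + t • y.2))) =
        J (Θ (M _ (γ t)), annulus s A (w.2 + t • y.2))
      rw [tw_J hJ hm2]
      unfold lam
      simp only
      rw [par_annulus hs hp2.le, hL _ _ (hm t)]
    have h3 := h1.unique (h2.congr_of_eventuallyEq heq)
    rw [htw.fderiv, hj.fderiv]
    exact h3
  rw [key u hu, key v hv]
  have ht1 : ∀ y : (V × V) × ℝ × ℝ, y.1 ∈ Tan w.1 →
      fderiv ℝ Θ (Psi M w).1 (fderiv ℝ (Psi M) w y).1 ∈ Tan (Θ (Psi M w).1) := fun y hy =>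
    fderiv_mem_tan hPw (Psi_fderiv_tan hM hmaps hw.1 hy) (hΘ _ hPw) hΘm
  rw [hJ.symp _ hmem2 _ _ (ht1 u hu) (ht1 v hv)]
  unfold omegaP
  simp only
  rw [hΘs _ hPw _ (Psi_fderiv_tan hM hmaps hw.1 hu) _
    (Psi_fderiv_tan hM hmaps hw.1 hv), annulus_fderiv hpos, annulus_fderiv hpos,
    area_annulusD hs hpos, Psi_fderiv_snd hM hw.1, Psi_fderiv_snd hM hw.1]

/-- The form `ω̃` exists. -/
theorem tw_isTransfer [FiniteDimensional ℝ V] {L' : ℝ → V × V → V × V} {t₀ t₁ : ℝ}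
    (hs : s ^ 2 = 1)
    (hJ : IsProdEmbedding J K R c) (h : IsFam L L' t₀ t₁ R₀) (hR : R₀ < R) (hBA : B ≤ A)
    (hc : A + B ≤ c) (ht0 : -B < t₀) (ht1 : t₁ < B)
    (hM : ∀ t, ∀ z ∈ TS V, ContDiffAt ℝ ∞ (fun w : ℝ × (V × V) => M w.1 w.2) (t, z))
    (hmaps : ∀ t, ∀ z ∈ TS V, M t z ∈ TS V)
    (hΘ : ∀ z ∈ TS V, DifferentiableAt ℝ Θ z) (hΘm : ∀ z ∈ TS V, Θ z ∈ TS V)
    (hΘs : ∀ z ∈ TS V, ∀ u ∈ Tan z, ∀ v ∈ Tan z,
      omega (fderiv ℝ Θ z u) (fderiv ℝ Θ z v) = omega u v)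
    (hL : ∀ p, ∀ z ∈ TS V, L (-s * p) z = Θ (M p z)) :
    IsTransfer J M s A R B (fun z u v =>
      omega (fderiv ℝ (tw J K R c A L) z u) (fderiv ℝ (tw J K R c A L) z v)) where
  off z hz u v := by
    by_cases hz2 : z ∈ J '' supp V R₀ (A - t₀)
    · obtain ⟨w, hw, rfl⟩ := hz2
      have hwO : w ∈ discProd V R c := supp_subset hR (by linarith) hw
      have hK : K (J w) = w := hJ.leftInv w hwO
      apply omega_tw_inner hJ h hR ⟨w, hwO, rfl⟩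
      rw [hK]
      by_contra hcon
      push Not at hcon
      apply hz
      have h1 : 2 * (A - B) < w.2.1 ^ 2 + w.2.2 ^ 2 := by
        unfold par at hcon
        linarith
      have h2 : w.2.1 ^ 2 + w.2.2 ^ 2 < 2 * (A + B) := by
        have := hw.2.2
        linarith
      obtain ⟨q, hq1, hq2⟩ := exists_annulus hs hBA h1 h2
      refine ⟨(w.1, q), ⟨hwO.1, hwO.2.1, hq1⟩, ?_⟩
      unfold jmap
      simp only
      rw [hq2]
    · exact omega_tw_outer hJ h hR (by linarith) hz2 u v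
  on w hw u v hu hv := tw_on hs hJ h hR hBA hc hM hmaps hΘ hΘm hΘs hL hw u v hu hv

theorem exists_transfer [FiniteDimensional ℝ V] (hM : IsTwist M N T R₀)
    (hJ : IsProdEmbedding J K R c) (hs : s = 1 ∨ s = -1) (hT : 0 ≤ T) (hR : R₀ < R)
    (hTB : T < B) (hBA : B ≤ A) (hc : A + B ≤ c) :
    ∃ Om : V × V → V × V → V × V → ℝ, IsTransfer J M s A R B Om := by
  rcases hs with rfl | rfl
  · have h1 := isTwist_isFam2 hM
    refine ⟨_, tw_isTransfer (Θ := N T) (by norm_num) hJ h1 hR hBA hc (by linarith) (by linarith)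
      hM.smoothM hM.mapsM
      (fun z hz => (Lt_contDiffAt hM.smoothN T hz).differentiableAt (by simp))
      (hM.mapsN T) (isTwist_sympN hM) ?_⟩
    intro p z hz
    show N T (M (-(-1 * p)) z) = N T (M p z)
    have : -(-1 * p) = p := by ring
    rw [this]
  · have h1 := isTwist_isFam hM
    refine ⟨_, tw_isTransfer (Θ := id) (by norm_num) hJ h1 hR hBA hc (by linarith) (by linarith)
      hM.smoothM hM.mapsM (fun z _ => differentiableAt_id) (fun z hz => hz) ?_ ?_⟩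
    · intro z _ u _ v _
      simp
    · intro p z hz
      show M (-(-1) * p) z = id (M p z)
      have : -(-1) * p = p := by ring
      rw [this]
      rfl

/-! ## The explicit embedding -/

/-- `J₀ ((x, y), (a, b)) = ((r₀ + a) x, b x + (r₀ + a)⁻¹ y)` -/
def J₀ (r₀ : ℝ) (w : (V × V) × ℝ × ℝ) : V × V :=
  ((r₀ + w.2.1) • w.1.1, w.2.2 • w.1.1 + (r₀ + w.2.1)⁻¹ • w.1.2)

/-- its inverse -/
def K₀ (r₀ : ℝ) (z : V × V) : (V × V) × ℝ × ℝ :=
  ((‖z.1‖⁻¹ • z.1, ‖z.1‖ • z.2 - (⟪z.1, z.2⟫_ℝ / ‖z.1‖) • z.1), (‖z.1‖ - r₀, ⟪z.1, z.2⟫_ℝ / ‖z.1‖))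

theorem K₀_J₀ {r₀ : ℝ} {w : (V × V) × ℝ × ℝ} (hw : w.1 ∈ TS V) (hr : 0 < r₀ + w.2.1) :
    K₀ r₀ (J₀ r₀ w) = w := by
  obtain ⟨⟨x, y⟩, ⟨a, b⟩⟩ := w
  obtain ⟨hx, hxy⟩ := hw
  simp only at hx hxy hr
  have hn : ‖(r₀ + a) • x‖ = r₀ + a := by
    rw [norm_smul, hx, mul_one, Real.norm_eq_abs, abs_of_pos hr]
  have hi : ⟪(r₀ + a) • x, b • x + (r₀ + a)⁻¹ • y⟫_ℝ = (r₀ + a) * b := by
    rw [real_inner_smul_left, inner_add_right, real_inner_smul_right, real_inner_smul_right, hxy,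
      real_inner_self_eq_norm_sq, hx]
    ring
  unfold K₀ J₀
  simp only
  rw [hn, hi, mul_div_cancel_left₀ _ hr.ne', smul_smul, inv_mul_cancel₀ hr.ne', one_smul,
    smul_add, smul_smul, smul_smul, mul_inv_cancel₀ hr.ne', one_smul, smul_smul, mul_comm b]
  simp

theorem K₀_mem {r₀ : ℝ} {z : V × V} (hz : z.1 ≠ 0) : (K₀ r₀ z).1 ∈ TS V ∧
    J₀ r₀ (K₀ r₀ z) = z := by
  obtain ⟨X, Y⟩ := z
  simp only at hz
  have hn : 0 < ‖X‖ := norm_pos_iff.mpr hz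
  refine ⟨⟨?_, ?_⟩, ?_⟩
  · show ‖‖X‖⁻¹ • X‖ = 1
    rw [norm_smul, norm_inv, norm_norm, inv_mul_cancel₀ hn.ne']
  · show ⟪‖X‖⁻¹ • X, ‖X‖ • Y - (⟪X, Y⟫_ℝ / ‖X‖) • X⟫_ℝ = 0
    rw [real_inner_smul_left, inner_sub_right, real_inner_smul_right, real_inner_smul_right,
      real_inner_self_eq_norm_sq]
    field_simp
    ring
  · unfold J₀ K₀
    simp only
    have e1 : r₀ + (‖X‖ - r₀) = ‖X‖ := by ring
    rw [e1, smul_smul, mul_inv_cancel₀ hn.ne', one_smul, smul_sub, smul_smul, smul_smul,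
      inv_mul_cancel₀ hn.ne', one_smul, smul_smul, mul_comm ‖X‖⁻¹ (⟪X, Y⟫_ℝ / ‖X‖)]
    simp

theorem J₀_hasFDerivAt {r₀ : ℝ} {w : (V × V) × ℝ × ℝ} (hr : r₀ + w.2.1 ≠ 0)
    (u : (V × V) × ℝ × ℝ) : fderiv ℝ (J₀ r₀) w u =
      (u.2.1 • w.1.1 + (r₀ + w.2.1) • u.1.1,
        u.2.2 • w.1.1 + w.2.2 • u.1.1 - (u.2.1 / (r₀ + w.2.1) ^ 2) • w.1.2 +
          (r₀ + w.2.1)⁻¹ • u.1.2) := by
  have hd : DifferentiableAt ℝ (J₀ (V := V) r₀) w := by
    have h0 : DifferentiableAt ℝ (fun w : (V × V) × ℝ × ℝ => r₀ + w.2.1) w := by fun_prop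
    have h1 : DifferentiableAt ℝ (fun w : (V × V) × ℝ × ℝ => (r₀ + w.2.1)⁻¹) w := h0.fun_inv hr
    unfold J₀
    fun_prop
  have hc : HasDerivAt (fun t : ℝ => w + t • u) u 0 := by
    have := ((hasDerivAt_id (0 : ℝ)).smul_const u).const_add w
    simpa using this
  have h1 := comp_curve hd.hasFDerivAt hc (by simp)
  have k1 : HasDerivAt (fun t : ℝ => w.1.1 + t • u.1.1) u.1.1 0 := by
    have := ((hasDerivAt_id (0 : ℝ)).smul_const u.1.1).const_add w.1.1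
    simpa using this
  have k2 : HasDerivAt (fun t : ℝ => w.1.2 + t • u.1.2) u.1.2 0 := by
    have := ((hasDerivAt_id (0 : ℝ)).smul_const u.1.2).const_add w.1.2
    simpa using this
  have k3 : HasDerivAt (fun t : ℝ => r₀ + (w.2.1 + t * u.2.1)) u.2.1 0 := by
    have := (((hasDerivAt_id (0 : ℝ)).mul_const u.2.1).const_add w.2.1).const_add r₀
    simpa using this
  have k4 : HasDerivAt (fun t : ℝ => w.2.2 + t * u.2.2) u.2.2 0 := by
    have := ((hasDerivAt_id (0 : ℝ)).mul_const u.2.2).const_add w.2.2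
    simpa using this
  have k5 := k3.fun_inv (by simpa using hr)
  have k6 := (k3.fun_smul k1).prodMk ((k4.fun_smul k1).fun_add (k5.fun_smul k2))
  have e : (J₀ (V := V) r₀ ∘ fun t : ℝ => w + t • u) = fun t : ℝ =>
      ((r₀ + (w.2.1 + t * u.2.1)) • (w.1.1 + t • u.1.1),
        (w.2.2 + t * u.2.2) • (w.1.1 + t • u.1.1) +
          (r₀ + (w.2.1 + t * u.2.1))⁻¹ • (w.1.2 + t • u.1.2)) := by
    funext t
    simp [J₀]
  rw [e] at h1
  rw [h1.unique k6]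
  simp only [zero_mul, add_zero, zero_smul]
  ext1
  · simp only
    abel
  · simp only
    rw [neg_div, neg_smul]
    abel

theorem isProdEmbedding₀ [FiniteDimensional ℝ V] (R r₀ c : ℝ) (hr : 0 < r₀)
    (hc : 2 * c ≤ r₀ ^ 2) : IsProdEmbedding (V := V) (J₀ r₀) (K₀ r₀) R c := by
  have hpos : ∀ w ∈ discProd V R c, 0 < r₀ + w.2.1 := by
    intro w hw
    have h1 : w.2.1 ^ 2 < r₀ ^ 2 := by nlinarith [hw.2.2, sq_nonneg w.2.2]
    have h2 := abs_lt_of_sq_lt_sq h1 hr.le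
    linarith [(abs_lt.mp h2).1]
  have hKc : ∀ z : V × V, z.1 ≠ 0 → ContDiffAt ℝ ∞ (K₀ r₀) z := by
    intro z hz
    have h1 : ContDiffAt ℝ ∞ (fun z : V × V => ‖z.1‖) z := contDiffAt_fst.norm ℝ hz
    have h2 : ContDiffAt ℝ ∞ (fun z : V × V => ‖z.1‖⁻¹) z := h1.inv (norm_ne_zero_iff.mpr hz)
    have h3 : ContDiffAt ℝ ∞ (fun z : V × V => ⟪z.1, z.2⟫_ℝ) z :=
      contDiffAt_fst.inner ℝ contDiffAt_snd
    have h4 : ContDiffAt ℝ ∞ (fun z : V × V => ⟪z.1, z.2⟫_ℝ / ‖z.1‖) z :=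
      h3.div h1 (norm_ne_zero_iff.mpr hz)
    unfold K₀
    exact ((h2.smul contDiffAt_fst).prodMk ((h1.smul contDiffAt_snd).sub
      (h4.smul contDiffAt_fst))).prodMk ((h1.sub contDiffAt_const).prodMk h4)
  have himage : J₀ r₀ '' discProd V R c = {z : V × V | z.1 ≠ 0 ∧
      (‖(K₀ r₀ z).1.2‖ < R ∧ (K₀ r₀ z).2.1 ^ 2 + (K₀ r₀ z).2.2 ^ 2 < 2 * c)} := by
    ext z
    constructor
    · rintro ⟨w, hw, rfl⟩
      have h1 := K₀_J₀ (r₀ := r₀) hw.1 (hpos w hw)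
      refine ⟨?_, ?_⟩
      · show (r₀ + w.2.1) • w.1.1 ≠ 0
        exact smul_ne_zero (hpos w hw).ne' (TS.ne_zero hw.1)
      · rw [h1]
        exact hw.2
    · rintro ⟨h1, h2⟩
      exact ⟨K₀ r₀ z, ⟨(K₀_mem h1).1, h2⟩, (K₀_mem h1).2⟩
  have hopen : IsOpen (J₀ r₀ '' discProd V R c) := by
    rw [himage, isOpen_iff_mem_nhds]
    rintro z ⟨h1, h2, h3⟩
    have c0 := (hKc z h1).continuousAt
    have c1 : ContinuousAt (fun z : V × V => ‖(K₀ r₀ z).1.2‖) z := c0.fst.snd.norm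
    have c2 : ContinuousAt (fun z : V × V => (K₀ r₀ z).2.1 ^ 2 + (K₀ r₀ z).2.2 ^ 2) z :=
      (c0.snd.fst.pow 2).add (c0.snd.snd.pow 2)
    have c3 : ContinuousAt (fun z : V × V => z.1) z := continuousAt_fst
    have d1 : ∀ᶠ y in 𝓝 z, y.1 ≠ 0 := c3.eventually (isOpen_ne.mem_nhds h1)
    have d2 : ∀ᶠ y in 𝓝 z, ‖(K₀ r₀ y).1.2‖ < R := c1.eventually_lt continuousAt_const h2
    have d3 : ∀ᶠ y in 𝓝 z, (K₀ r₀ y).2.1 ^ 2 + (K₀ r₀ y).2.2 ^ 2 < 2 * c :=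
      c2.eventually_lt continuousAt_const h3
    filter_upwards [d1, d2, d3] with y hy1 hy2 hy3
    exact ⟨hy1, hy2, hy3⟩
  refine ⟨?_, hopen, ?_, ?_, ?_⟩
  · intro w hw
    have h1 : ContDiffAt ℝ ∞ (fun w : (V × V) × ℝ × ℝ => r₀ + w.2.1) w := by fun_prop
    have h2 := h1.inv (hpos w hw).ne'
    have a1 : ContDiffAt ℝ ∞ (fun w : (V × V) × ℝ × ℝ => w.1.1) w := by fun_prop
    have a2 : ContDiffAt ℝ ∞ (fun w : (V × V) × ℝ × ℝ => w.1.2) w := by fun_prop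
    have a3 : ContDiffAt ℝ ∞ (fun w : (V × V) × ℝ × ℝ => w.2.2) w := by fun_prop
    exact (h1.smul a1).prodMk ((a3.smul a1).add (h2.smul a2))
  · intro z hz
    rw [himage] at hz
    exact (hKc z hz.1).contDiffWithinAt
  · intro w hw
    exact K₀_J₀ hw.1 (hpos w hw)
  · intro w hw u v hu hv
    have hp := hpos w hw
    rw [J₀_hasFDerivAt hp.ne', J₀_hasFDerivAt hp.ne']
    obtain ⟨⟨x, y⟩, ⟨a, b⟩⟩ := w
    obtain ⟨⟨ξ, η⟩, ⟨α, β⟩⟩ := u
    obtain ⟨⟨ξ', η'⟩, ⟨α', β'⟩⟩ := v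
    obtain ⟨⟨hx, hxy⟩, -⟩ := hw
    obtain ⟨h1, h2⟩ := hu
    obtain ⟨h3, h4⟩ := hv
    simp only at hx hxy h1 h2 h3 h4 hp
    unfold omegaP omega area
    simp only [inner_add_left, inner_add_right, inner_sub_left, real_inner_smul_left,
      real_inner_smul_right]
    have hxx : ⟪x, x⟫_ℝ = 1 := by rw [real_inner_self_eq_norm_sq, hx]; norm_num
    have hyx : ⟪y, x⟫_ℝ = 0 := by rw [real_inner_comm]; exact hxy
    have h1' : ⟪ξ, x⟫_ℝ = 0 := by rw [real_inner_comm]; exact h1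
    have h3' : ⟪ξ', x⟫_ℝ = 0 := by rw [real_inner_comm]; exact h3
    have e1 : ⟪η, x⟫_ℝ = -⟪y, ξ⟫_ℝ := by
      rw [real_inner_comm x η, real_inner_comm ξ y]; linarith
    have e2 : ⟪η', x⟫_ℝ = -⟪y, ξ'⟫_ℝ := by
      rw [real_inner_comm x η', real_inner_comm ξ' y]; linarith
    have e3 : ⟪ξ', ξ⟫_ℝ = ⟪ξ, ξ'⟫_ℝ := real_inner_comm _ _
    rw [hxx, hyx, h1, h3, h1', h3', e1, e2, e3]
    have hne := hp.ne'
    field_simp
    ring

end Pool.Agent.EXS
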